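import Pool.Agent.R753.SJ.G
import Pool.Agent.Y512.Main13

set_option autoImplicit false
set_option linter.unusedSectionVars false

/-!
# Interior points close to a facet: consequences
-/

namespace Pool.Agent.R753.SJ

open scoped InnerProductSpace Topology
open Metric Pool.Agent.H985.Sep Pool.Agent.R753 Module Filter

variable {E : Type} [NormedAddCommGroup E] [InnerProductSpace ℝ E] [FiniteDimensional ℝ E]

/-- translation -/
lemma sepd_shift {V : Type*} [NormedAddCommGroup V] [InnerProductSpace ℝ V] {S : Set V} {w₀ : V}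
    {n : ℕ} (h : Sepd n S w₀) : Sepd n {w | w₀ + w ∈ S} 0 := by
  classical
  obtain ⟨H, hc, hn, hH⟩ := h
  refine ⟨H.image fun h => (h.1, h.2 - ⟪h.1, w₀⟫_ℝ), Finset.card_image_le.trans hc, ?_, ?_⟩
  · intro h hh
    obtain ⟨g, hg, rfl⟩ := Finset.mem_image.1 hh
    exact hn g hg
  · intro u x₀ hu hx₀ hmax
    obtain ⟨h, hh, h1, h2⟩ := hH u (w₀ + x₀) hu hx₀ (fun y hy => by
      have h3 := hmax (y - w₀) (by show w₀ + (y - w₀) ∈ S; rwa [add_sub_cancel])
      rw [inner_sub_right] at h3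
      rw [inner_add_right]
      linarith)
    refine ⟨_, Finset.mem_image_of_mem _ hh, ?_, ?_⟩
    · show ⟪h.1, 0⟫_ℝ < h.2 - ⟪h.1, w₀⟫_ℝ
      rw [inner_zero_right]
      linarith
    · intro x hx hxu
      have h3 := h2 (w₀ + x) hx (by rw [inner_add_right, inner_add_right, hxu])
      show h.2 - ⟪h.1, w₀⟫_ℝ < ⟪h.1, x⟫_ℝ
      rw [inner_add_right] at h3
      linarith

/-- interior points are strictly on the inner side of a supporting hyperplane -/
lemma strict_of_int {K : Set E} {o' e o : E} (he : e ≠ 0) (hpos : ∀ x ∈ K, 0 ≤ ⟪e, x - o'⟫_ℝ)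
    (ho : o ∈ interior K) : 0 < ⟪e, o - o'⟫_ℝ := by
  obtain ⟨r, hr, hrK⟩ := exists_ball ho
  have hn : 0 < ‖e‖ := norm_pos_iff.mpr he
  have h1 : o - (r / ‖e‖) • e ∈ K := by
    apply hrK
    rw [mem_closedBall, dist_eq_norm, sub_sub_cancel_left, norm_neg, norm_smul, Real.norm_eq_abs,
      abs_of_pos (by positivity), div_mul_cancel₀ _ hn.ne']
  have h2 := hpos _ h1
  have h3 : o - (r / ‖e‖) • e - o' = (o - o') - (r / ‖e‖) • e := by abel
  rw [h3, inner_sub_right, real_inner_smul_right, real_inner_self_eq_norm_sq] at h2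
  have h4 : 0 < r / ‖e‖ * ‖e‖ ^ 2 := by positivity
  linarith

/-- The lower bound `d + 1`. -/
theorem lower {K : Set E} (hK : Convex ℝ K) (hKc : IsCompact K) {o : E} (ho : o ∈ interior K)
    (hd : 1 ≤ finrank ℝ E) {n : ℕ} (hs : Sepd n K o) : finrank ℝ E + 1 ≤ n := by
  classical
  by_contra hcon
  have hn : n ≤ finrank ℝ E := by omega
  obtain ⟨H, hHc, -, hH⟩ := hs
  obtain ⟨u, hu, huH⟩ : ∃ u : E, u ≠ 0 ∧ ∀ h ∈ H, ⟪h.1, u⟫_ℝ ≤ 0 := by
    let L : E →ₗ[ℝ] (H → ℝ) := LinearMap.pi fun h => (innerₛₗ ℝ h.1.1 : E →ₗ[ℝ] ℝ)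
    have hL : ∀ u (h : H), L u h = ⟪h.1.1, u⟫_ℝ := fun u h => rfl
    by_cases hinj : Function.Injective L
    · have h1 : finrank ℝ (H → ℝ) = H.card := by simp
      have h2 : finrank ℝ E ≤ finrank ℝ (H → ℝ) := LinearMap.finrank_le_finrank_of_injective hinj
      have h3 : finrank ℝ E = finrank ℝ (H → ℝ) := by omega
      have hsurj : Function.Surjective L :=
        (LinearMap.injective_iff_surjective_of_finrank_eq_finrank h3).1 hinj
      obtain ⟨u, hu⟩ := hsurj fun _ => -1
      have hHn : H.Nonempty := by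
        rw [← Finset.card_pos]; omega
      obtain ⟨h₀, hh₀⟩ := hHn
      refine ⟨u, ?_, fun h hh => ?_⟩
      · rintro rfl
        have := congrFun hu ⟨h₀, hh₀⟩
        simp at this
      · have := congrFun hu ⟨h, hh⟩
        rw [hL] at this
        simp only at this
        rw [this]
        norm_num
    · rw [← LinearMap.ker_eq_bot, Submodule.eq_bot_iff] at hinj
      push Not at hinj
      obtain ⟨u, hu1, hu2⟩ := hinj
      refine ⟨u, hu2, fun h hh => ?_⟩
      have := congrFun (LinearMap.mem_ker.1 hu1) ⟨h, hh⟩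
      rw [hL] at this
      simp only at this
      rw [this]
      rfl
  -- the boundary point in the direction `u`
  have hcl : IsCompact {t : ℝ | 0 ≤ t ∧ o + t • u ∈ K} := by
    obtain ⟨R, hR⟩ := hKc.isBounded.exists_norm_le
    have hn : 0 < ‖u‖ := norm_pos_iff.mpr hu
    refine (isCompact_Icc (a := (0 : ℝ)) (b := (R + ‖o‖) / ‖u‖)).of_isClosed_subset ?_ ?_
    · exact (isClosed_le continuous_const continuous_id).inter
        (hKc.isClosed.preimage (by fun_prop : Continuous fun t : ℝ => o + t • u))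
    · rintro t ⟨ht, htK⟩
      refine ⟨ht, ?_⟩
      rw [le_div_iff₀ hn]
      have h1 := hR _ htK
      have h2 : ‖t • u‖ ≤ ‖o + t • u‖ + ‖o‖ := by
        have := norm_sub_le (o + t • u) o
        rwa [add_sub_cancel_left] at this
      rw [norm_smul, Real.norm_eq_abs, abs_of_nonneg ht] at h2
      linarith
  obtain ⟨t₀, ⟨ht0, htK⟩, hmax⟩ := hcl.exists_isMaxOn
    ⟨0, le_rfl, by simpa using interior_subset ho⟩ (f := fun t : ℝ => t) continuousOn_id
  have hbd : o + t₀ • u ∉ interior K := by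
    intro hin
    have hc : Continuous fun t : ℝ => o + t • u := by fun_prop
    have hev := hc.continuousAt.eventually (isOpen_interior.mem_nhds hin)
    obtain ⟨t, ht, ht1⟩ := ((hev.filter_mono (nhdsWithin_le_nhds (s := Set.Ioi t₀))).and
      self_mem_nhdsWithin).exists
    have ht1' : t₀ < t := ht1
    have h2 : t ≤ t₀ := hmax (show 0 ≤ t ∧ o + t • u ∈ K from ⟨by linarith, interior_subset ht⟩)
    linarith
  obtain ⟨f, hf⟩ := geometric_hahn_banach_open_point hK.interior isOpen_interior hbd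
  set v : E := (InnerProductSpace.toDual ℝ E).symm f with hv
  have hvf : ∀ x, ⟪v, x⟫_ℝ = f x := fun x => InnerProductSpace.toDual_symm_apply
  have hv0 : v ≠ 0 := by
    intro h
    have h1 := hf o ho
    rw [← hvf, ← hvf, h, inner_zero_left, inner_zero_left] at h1
    exact lt_irrefl _ h1
  have hKle : ∀ y ∈ K, ⟪v, y⟫_ℝ ≤ ⟪v, o + t₀ • u⟫_ℝ := by
    intro y hy
    have hcl2 : y ∈ closure (interior K) := by
      rw [hK.closure_interior_eq_closure_of_nonempty_interior ⟨o, ho⟩]
      exact subset_closure hy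
    have : IsClosed {y : E | ⟪v, y⟫_ℝ ≤ ⟪v, o + t₀ • u⟫_ℝ} :=
      isClosed_le (by fun_prop) continuous_const
    refine closure_minimal (fun z hz => ?_) this hcl2
    have h1 := hf z hz
    rw [← hvf, ← hvf] at h1
    exact h1.le
  obtain ⟨h, hh, h1, h2⟩ := hH v _ hv0 htK hKle
  have h3 := h2 _ htK rfl
  rw [inner_add_right, real_inner_smul_right] at h3
  have h4 := huH h hh
  nlinarith

/-- Coverings by 13 translates in dimension three. -/
lemma cover_13 {V : Type} [NormedAddCommGroup V] [InnerProductSpace ℝ V]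
    [FiniteDimensional ℝ V] (hd : finrank ℝ V = 3) {P : Set V}
    (h1 : Convex ℝ P) (h2 : IsCompact P) (h3 : (interior P).Nonempty) :
    ∃ T : Finset V, T.card ≤ 13 ∧ P ⊆ ⋃ t ∈ T, (fun x => t + x) '' interior P := by
  let f : V ≃ₗᵢ[ℝ] EuclideanSpace ℝ (Fin 3) := ((stdOrthonormalBasis ℝ V).reindex (finCongr hd)).repr
  refine cover_equiv f.toContinuousLinearEquiv P _ ?_
  refine Pool.Agent.Y512.covN13 _ ?_ ?_ ?_
  · exact h1.linear_image f.toLinearEquiv.toLinearMap
  · exact h2.image f.continuous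
  · have : interior (f.toContinuousLinearEquiv '' P) = f.toContinuousLinearEquiv '' interior P :=
      (f.toContinuousLinearEquiv.toHomeomorph.image_interior P).symm
    rw [this]
    exact h3.image _

lemma finrank_W {e : E} (he : e ≠ 0) : finrank ℝ (WW e) + 1 = finrank ℝ E := by
  have h2 := Submodule.finrank_add_finrank_orthogonal (Submodule.span ℝ {e})
  rw [finrank_span_singleton he] at h2
  have : finrank ℝ (WW e) = finrank ℝ (Submodule.span ℝ {e})ᗮ := rfl
  omega

/-- the facet step for interior points -/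
theorem facet_int {K : Set E} (hKc : IsCompact K) {o' e : E} (he : ‖e‖ = 1)
    (h0 : o' ∈ K) (hpos : ∀ x ∈ K, 0 ≤ ⟪e, x - o'⟫_ℝ) (hKi : (interior K).Nonempty)
    (hd : 2 ≤ finrank ℝ E) {n : ℕ} (hs : Sepd n (sec K o' e) 0) :
    ∃ ε : ℝ, 0 < ε ∧ ∀ o ∈ interior K, dist o o' < ε → Sepd (n + 1) K o := by
  have he0 : e ≠ 0 := by rintro rfl; simp at he
  have hf := finrank_W he0
  have : Nontrivial (WW e) := Module.nontrivial_of_finrank_pos (R := ℝ) (by omega)
  obtain ⟨p, hp⟩ := hKi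
  obtain ⟨ε, hε, h⟩ := facet hKc he h0 hpos
    ⟨p, interior_subset hp, strict_of_int he0 hpos hp⟩ hs
  exact ⟨ε, hε, fun o ho h1 => h o (strict_of_int he0 hpos ho) h1⟩

theorem facet_three {K : Set E} (hKc : IsCompact K) {o' e : E} (he : ‖e‖ = 1)
    (h0 : o' ∈ K) (hpos : ∀ x ∈ K, 0 ≤ ⟪e, x - o'⟫_ℝ) (hKi : (interior K).Nonempty)
    (hd : finrank ℝ E = 3) (hF : 0 ∈ interior (sec K o' e)) :
    ∃ ε : ℝ, 0 < ε ∧ ∀ o ∈ interior K, dist o o' < ε → Sepd 5 K o := by
  have he0 : e ≠ 0 := by rintro rfl; simp at he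
  have hf := finrank_W he0
  refine facet_int hKc he h0 hpos hKi (by omega) (n := 4) ?_
  have hfr : finrank ℝ (WW e) = 2 := by omega
  exact sepd_of_cover hF (cover_le_two (V := WW e) hfr le_rfl
    (convex_polar (sec K o' e) 0) (isCompact_polar hF)
    (interior_polar_nonempty (sec_compact hKc) hF))

theorem facet_four {K : Set E} (hKc : IsCompact K) {o' e : E} (he : ‖e‖ = 1)
    (h0 : o' ∈ K) (hpos : ∀ x ∈ K, 0 ≤ ⟪e, x - o'⟫_ℝ) (hKi : (interior K).Nonempty)
    (hd : finrank ℝ E = 4) (hF : 0 ∈ interior (sec K o' e)) :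
    ∃ ε : ℝ, 0 < ε ∧ ∀ o ∈ interior K, dist o o' < ε → Sepd 14 K o := by
  have he0 : e ≠ 0 := by rintro rfl; simp at he
  have hf := finrank_W he0
  refine facet_int hKc he h0 hpos hKi (by omega) (n := 13) ?_
  have hfr : finrank ℝ (WW e) = 3 := by omega
  exact sepd_of_cover hF (cover_13 (V := WW e) hfr
    (convex_polar (sec K o' e) 0) (isCompact_polar hF)
    (interior_polar_nonempty (sec_compact hKc) hF))

end Pool.Agent.R753.SJ
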