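import Mathlib
import Pool.Agent.H985.Sep

set_option autoImplicit false

/-!
# Separating hyperplanes and coverings of the polar body: the converse

`H985.Sep.separate` passes from coverings of the polar body to separating hyperplanes; here is the
converse.
-/

namespace Pool.Agent.R753.SJ

open scoped InnerProductSpace Topology
open Metric Pool.Agent.H985.Sep

variable {E : Type*} [NormedAddCommGroup E] [InnerProductSpace ℝ E] [FiniteDimensional ℝ E]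

/-- `s(K, o) ≤ n`. -/
def Sepd {E : Type*} [NormedAddCommGroup E] [InnerProductSpace ℝ E] (n : ℕ) (K : Set E)
    (o : E) : Prop :=
  ∃ H : Finset (E × ℝ), H.card ≤ n ∧ (∀ h ∈ H, h.1 ≠ 0) ∧
    ∀ u x₀ : E, u ≠ 0 → x₀ ∈ K → (∀ y ∈ K, ⟪u, y⟫_ℝ ≤ ⟪u, x₀⟫_ℝ) →
      ∃ h ∈ H, ⟪h.1, o⟫_ℝ < h.2 ∧ ∀ x ∈ K, ⟪u, x⟫_ℝ = ⟪u, x₀⟫_ℝ → h.2 < ⟪h.1, x⟫_ℝ

omit [FiniteDimensional ℝ E] in
/-- points at which all the functionals are `< 1` are interior points of the polar body -/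
lemma mem_int {K : Set E} {o : E} (hKc : IsCompact K) {w : E}
    (hw : ∀ y ∈ K, ⟪w, y - o⟫_ℝ < 1) : w ∈ interior (polar K o) := by
  obtain ⟨R, hR⟩ : ∃ R : ℝ, ∀ y ∈ K, ‖y - o‖ ≤ R := by
    obtain ⟨R, hR⟩ := hKc.isBounded.subset_closedBall o
    exact ⟨R, fun y hy => by simpa [dist_eq_norm] using hR hy⟩
  rcases K.eq_empty_or_nonempty with hKe | hKn
  · have : polar K o = Set.univ := by
      ext v; simp [polar, hKe]
    rw [this, interior_univ]; trivial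
  obtain ⟨y₀, hy₀, hmax⟩ := hKc.exists_isMaxOn hKn
    (f := fun y => ⟪w, y - o⟫_ℝ) (by fun_prop)
  have hR0 : 0 ≤ R := (norm_nonneg _).trans (hR _ hy₀)
  have h1 := hw y₀ hy₀
  rw [mem_interior]
  refine ⟨ball w ((1 - ⟪w, y₀ - o⟫_ℝ) / (R + 1)), ?_, isOpen_ball, ?_⟩
  · intro v hv y hy
    rw [mem_ball, dist_eq_norm] at hv
    have e : ⟪v, y - o⟫_ℝ = ⟪w, y - o⟫_ℝ + ⟪v - w, y - o⟫_ℝ := by
      rw [inner_sub_left]; ring
    have h2 : ⟪w, y - o⟫_ℝ ≤ ⟪w, y₀ - o⟫_ℝ := hmax hy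
    have h3 : ⟪v - w, y - o⟫_ℝ ≤ ‖v - w‖ * ‖y - o‖ := real_inner_le_norm _ _
    have h4 : ‖v - w‖ * ‖y - o‖ ≤ (1 - ⟪w, y₀ - o⟫_ℝ) / (R + 1) * R := by
      exact mul_le_mul hv.le (hR y hy) (norm_nonneg _)
        (div_nonneg (by linarith) (by linarith))
    have h5 : (1 - ⟪w, y₀ - o⟫_ℝ) / (R + 1) * R ≤ 1 - ⟪w, y₀ - o⟫_ℝ := by
      rw [div_mul_eq_mul_div, div_le_iff₀ (by linarith)]
      nlinarith
    rw [e]; linarith
  · apply mem_ball_self
    apply div_pos <;> linarith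

omit [FiniteDimensional ℝ E] in
/-- a functional `u ≠ 0` is somewhere positive on `K - o` -/
lemma exists_pos {K : Set E} {o : E} (ho : o ∈ interior K) {u : E} (hu : u ≠ 0) :
    ∃ y ∈ K, 0 < ⟪u, y - o⟫_ℝ := by
  obtain ⟨r, hr, hrK⟩ := exists_ball ho
  have hn : 0 < ‖u‖ := norm_pos_iff.mpr hu
  refine ⟨o + (r / ‖u‖) • u, ?_, ?_⟩
  · apply hrK
    rw [mem_closedBall, dist_eq_norm, add_sub_cancel_left, norm_smul, Real.norm_eq_abs,
      abs_of_pos (by positivity), div_mul_cancel₀ _ hn.ne']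
  · rw [add_sub_cancel_left, real_inner_smul_right, real_inner_self_eq_norm_sq]
    positivity

omit [FiniteDimensional ℝ E] in
/-- the local statement -/
lemma loc {K : Set E} {o : E} (hKc : IsCompact K) {v : E}
    (hv : v ∈ polar K o) {h : E × ℝ} (h1 : ⟪h.1, o⟫_ℝ < h.2)
    (h2 : ∀ x ∈ K, ⟪v, x - o⟫_ℝ = 1 → h.2 < ⟪h.1, x⟫_ℝ) :
    ∃ ε : ℝ, 0 < ε ∧ v - ε • h.1 ∈ interior (polar K o) := by
  obtain ⟨R, hR⟩ : ∃ R : ℝ, ∀ y ∈ K, ‖y - o‖ ≤ R := by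
    obtain ⟨R, hR⟩ := hKc.isBounded.subset_closedBall o
    exact ⟨R, fun y hy => by simpa [dist_eq_norm] using hR hy⟩
  set c : ℝ := h.2 - ⟪h.1, o⟫_ℝ with hc
  have hc0 : 0 < c := by linarith
  set K' : Set E := K ∩ {y | ⟪h.1, y - o⟫_ℝ ≤ c} with hK'
  have hK'c : IsCompact K' := hKc.inter_right (isClosed_le (by fun_prop) continuous_const)
  obtain ⟨η, hη0, hη⟩ : ∃ η > 0, ∀ y ∈ K', ⟪v, y - o⟫_ℝ ≤ 1 - η := by
    rcases K'.eq_empty_or_nonempty with hE | hN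
    · exact ⟨1, one_pos, by simp [hE]⟩
    obtain ⟨y₀, hy₀, hmax⟩ := hK'c.exists_isMaxOn hN
      (f := fun y => ⟪v, y - o⟫_ℝ) (by fun_prop)
    have h3 : ⟪v, y₀ - o⟫_ℝ < 1 := by
      rcases lt_or_eq_of_le (hv y₀ hy₀.1) with hh | hh
      · exact hh
      · exfalso
        have h4 := h2 y₀ hy₀.1 hh
        have h5 : ⟪h.1, y₀ - o⟫_ℝ ≤ c := hy₀.2
        rw [inner_sub_right] at h5
        linarith
    exact ⟨1 - ⟪v, y₀ - o⟫_ℝ, by linarith, fun y hy => by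
      have h6 : ⟪v, y - o⟫_ℝ ≤ ⟪v, y₀ - o⟫_ℝ := hmax hy
      linarith⟩
  set D : ℝ := ‖h.1‖ * (|R| + 1) + 1 with hD
  have hD0 : 0 < D := by positivity
  refine ⟨η / D, by positivity, mem_int hKc fun y hy => ?_⟩
  rw [inner_sub_left, real_inner_smul_left]
  by_cases hy' : y ∈ K'
  · have h3 := hη y hy'
    have h4 : -⟪h.1, y - o⟫_ℝ ≤ ‖h.1‖ * ‖y - o‖ := by
      have := abs_real_inner_le_norm h.1 (y - o)
      exact (neg_le_abs _).trans this
    have h5 : ‖h.1‖ * ‖y - o‖ ≤ ‖h.1‖ * (|R| + 1) := by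
      gcongr
      have := hR y hy
      have := le_abs_self R
      linarith
    have h6 : η / D * (-⟪h.1, y - o⟫_ℝ) < η := by
      calc η / D * (-⟪h.1, y - o⟫_ℝ) ≤ η / D * (D - 1) := by
            gcongr
            rw [hD]
            linarith
        _ < η := by
            rw [div_mul_eq_mul_div, div_lt_iff₀ hD0]
            nlinarith
    linarith
  · have h3 : c < ⟪h.1, y - o⟫_ℝ := by
      by_contra h4
      exact hy' ⟨hy, not_lt.mp h4⟩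
    have h4 := hv y hy
    have h5 : 0 < η / D * ⟪h.1, y - o⟫_ℝ := by
      have : 0 < ⟪h.1, y - o⟫_ℝ := hc0.trans h3
      positivity
    linarith

/-- The converse of `Sep.separate`. -/
theorem cover {K : Set E} {o : E} {n : ℕ} (hKc : IsCompact K) (ho : o ∈ interior K) (hn : 1 ≤ n)
    (hs : Sepd n K o) : ∃ T : Finset E, T.card ≤ n ∧
      polar K o ⊆ ⋃ t ∈ T, (fun x => t + x) '' interior (polar K o) := by
  classical
  have h0 : (0 : E) ∈ interior (polar K o) := mem_int hKc fun y _ => by simp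
  rcases subsingleton_or_nontrivial E with hE | hE
  · refine ⟨{0}, by simpa using hn, fun v _ => ?_⟩
    simp only [Set.mem_iUnion]
    exact ⟨0, by simp, 0, h0, Subsingleton.elim _ _⟩
  obtain ⟨H, hHc, -, hH⟩ := hs
  have hKn : K.Nonempty := ⟨o, interior_subset ho⟩
  have hPk : IsCompact (polar K o) := isCompact_polar ho
  have hPc := convex_polar K o
  -- the boundary of the polar body
  set B : Set E := {v | v ∈ polar K o ∧ ∃ x ∈ K, ⟪v, x - o⟫_ℝ = 1} with hB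
  have hloc : ∀ v ∈ B, ∃ h ∈ H, ∃ ε : ℝ, 0 < ε ∧ v - ε • h.1 ∈ interior (polar K o) := by
    rintro v ⟨hv, x₀, hx₀, hvx⟩
    have hv0 : v ≠ 0 := by
      rintro rfl
      simp at hvx
    have hvo : ∀ y : E, ⟪v, y⟫_ℝ = ⟪v, y - o⟫_ℝ + ⟪v, o⟫_ℝ := fun y => by
      rw [inner_sub_right]; ring
    obtain ⟨h, hh, h1, h2⟩ := hH v x₀ hv0 hx₀ (fun y hy => by
      rw [hvo y, hvo x₀, hvx]
      have := hv y hy
      linarith)
    obtain ⟨ε, hε, h3⟩ := loc hKc hv h1 (fun x hx hx1 => h2 x hx (by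
      rw [hvo x, hvo x₀, hvx, hx1]))
    exact ⟨h, hh, ε, hε, h3⟩
  have hBcl : IsCompact B := by
    have e : B = polar K o ∩ {v | ∃ x ∈ K, ⟪v, x - o⟫_ℝ = 1} := rfl
    rw [e]
    refine hPk.inter_right ?_
    have e2 : {v : E | ∃ x ∈ K, ⟪v, x - o⟫_ℝ = 1} =
        Prod.fst '' ({p : E × E | ⟪p.1, p.2 - o⟫_ℝ = 1} ∩ (Set.univ ×ˢ K)) := by
      ext v
      constructor
      · rintro ⟨x, hx, h⟩
        exact ⟨(v, x), ⟨h, trivial, hx⟩, rfl⟩
      · rintro ⟨⟨v', x⟩, ⟨h, -, hx⟩, rfl⟩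
        exact ⟨x, hx, h⟩
    rw [← isSeqClosed_iff_isClosed]
    intro f v hf hlim
    choose x hx hfx using hf
    obtain ⟨a, ha, φ, hφ, hxa⟩ := hKc.tendsto_subseq hx
    refine ⟨a, ha, ?_⟩
    have h1 : Filter.Tendsto (fun i => ⟪f (φ i), x (φ i) - o⟫_ℝ) Filter.atTop
        (𝓝 ⟪v, a - o⟫_ℝ) := by
      have h2 : Filter.Tendsto (fun i => f (φ i)) Filter.atTop (𝓝 v) :=
        hlim.comp hφ.tendsto_atTop
      have h3 : Filter.Tendsto (fun i => x (φ i) - o) Filter.atTop (𝓝 (a - o)) :=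
        hxa.sub_const o
      exact h2.inner h3
    have h4 : (fun i => ⟪f (φ i), x (φ i) - o⟫_ℝ) = fun _ => (1 : ℝ) := by
      funext i; exact hfx _
    rw [h4] at h1
    exact (tendsto_nhds_unique h1 tendsto_const_nhds)
  -- a uniform `ε`
  obtain ⟨ε₁, hε₁, hunif⟩ : ∃ ε : ℝ, 0 < ε ∧ ∀ v ∈ B, ∃ h ∈ H, ∃ ε' : ℝ, ε ≤ ε' ∧
      v - ε' • h.1 ∈ interior (polar K o) := by
    let U : ℕ → Set E := fun k => {v | ∃ h ∈ H, ∃ ε' : ℝ, (1 / ((k : ℝ) + 1)) ≤ ε' ∧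
      v - ε' • h.1 ∈ interior (polar K o)}
    have hUo : ∀ k, IsOpen (U k) := by
      intro k
      have : U k = ⋃ h ∈ H, ⋃ ε' ∈ Set.Ici (1 / ((k : ℝ) + 1)),
          (fun v => v - ε' • h.1) ⁻¹' interior (polar K o) := by
        ext v
        constructor
        · rintro ⟨h, hh, ε', hε', h1⟩
          exact Set.mem_iUnion₂.2 ⟨h, hh, Set.mem_iUnion₂.2 ⟨ε', hε', h1⟩⟩
        · intro h1
          obtain ⟨h, hh, h2⟩ := Set.mem_iUnion₂.1 h1
          obtain ⟨ε', hε', h3⟩ := Set.mem_iUnion₂.1 h2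
          exact ⟨h, hh, ε', hε', h3⟩
      rw [this]
      refine isOpen_biUnion fun h _ => isOpen_biUnion fun ε' _ => ?_
      exact isOpen_interior.preimage (by fun_prop)
    have hcov : B ⊆ ⋃ k, U k := by
      intro v hv
      obtain ⟨h, hh, ε, hε, h1⟩ := hloc v hv
      obtain ⟨k, hk⟩ := exists_nat_one_div_lt hε
      exact Set.mem_iUnion.2 ⟨k, h, hh, ε, hk.le, h1⟩
    have hdir : Directed (· ⊆ ·) U := by
      refine directed_of_isDirected_le fun i j hij v hv => ?_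
      obtain ⟨h, hh, ε', hε', h1⟩ := hv
      refine ⟨h, hh, ε', le_trans ?_ hε', h1⟩
      have hij' : (i : ℝ) ≤ (j : ℝ) := by exact_mod_cast hij
      exact one_div_le_one_div_of_le (by positivity) (by linarith)
    obtain ⟨k, hk⟩ := hBcl.elim_directed_cover U hUo hcov hdir
    exact ⟨1 / ((k : ℝ) + 1), by positivity, fun v hv => hk hv⟩
  obtain ⟨ε₂, hε₂, hsmall⟩ : ∃ ε : ℝ, 0 < ε ∧ ∀ h ∈ H, ∀ ε' : ℝ, 0 ≤ ε' → ε' ≤ ε →
      -(ε' • h.1) ∈ interior (polar K o) := by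
    obtain ⟨r, hr, hrb⟩ := Metric.isOpen_iff.mp isOpen_interior _ h0
    obtain ⟨S, hS0, hS⟩ : ∃ S : ℝ, 0 < S ∧ ∀ h ∈ H, ‖h.1‖ < S := by
      refine ⟨∑ h ∈ H, ‖h.1‖ + 1, by positivity, fun h hh => ?_⟩
      have := Finset.single_le_sum (f := fun h : E × ℝ => ‖h.1‖) (fun i _ => norm_nonneg _) hh
      have := this
      linarith
    refine ⟨r / S, by positivity, fun h hh ε' h1 h2 => hrb ?_⟩
    rw [mem_ball_zero_iff, norm_neg, norm_smul, Real.norm_eq_abs, abs_of_nonneg h1]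
    calc ε' * ‖h.1‖ ≤ r / S * ‖h.1‖ := by gcongr
      _ < r / S * S := by
          have := hS h hh
          gcongr
      _ = r := by field_simp
  set ε := min ε₁ ε₂ with hε
  have hε0 : 0 < ε := lt_min hε₁ hε₂
  refine ⟨H.image fun h => ε • h.1, Finset.card_image_le.trans hHc, fun v hv => ?_⟩
  -- the boundary point over `v`
  obtain ⟨b, hb, l, hl0, hl1, hvb⟩ : ∃ b ∈ B, ∃ l : ℝ, 0 ≤ l ∧ l ≤ 1 ∧ v = l • b := by
    have key : ∀ w : E, w ≠ 0 → ∃ s : ℝ, 0 < s ∧ s • w ∈ B ∧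
        ∀ y ∈ K, ⟪w, y - o⟫_ℝ ≤ s⁻¹ := by
      intro w hw
      obtain ⟨x₀, hx₀, hmax⟩ := hKc.exists_isMaxOn hKn
        (f := fun y => ⟪w, y - o⟫_ℝ) (by fun_prop)
      obtain ⟨y, hy, hy0⟩ := exists_pos ho hw
      have hm : 0 < ⟪w, x₀ - o⟫_ℝ := hy0.trans_le (hmax hy)
      refine ⟨(⟪w, x₀ - o⟫_ℝ)⁻¹, by positivity, ⟨?_, x₀, hx₀, ?_⟩, ?_⟩
      · intro y hy
        rw [real_inner_smul_left]
        have h1 : ⟪w, y - o⟫_ℝ ≤ ⟪w, x₀ - o⟫_ℝ := hmax hy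
        calc (⟪w, x₀ - o⟫_ℝ)⁻¹ * ⟪w, y - o⟫_ℝ ≤ (⟪w, x₀ - o⟫_ℝ)⁻¹ * ⟪w, x₀ - o⟫_ℝ := by gcongr
          _ = 1 := inv_mul_cancel₀ hm.ne'
      · rw [real_inner_smul_left, inv_mul_cancel₀ hm.ne']
      · intro y hy
        rw [inv_inv]
        exact hmax hy
    rcases eq_or_ne v 0 with rfl | hv0
    · obtain ⟨w, hw⟩ := exists_ne (0 : E)
      obtain ⟨s, _, hsB, _⟩ := key w hw
      exact ⟨s • w, hsB, 0, le_rfl, zero_le_one, by simp⟩
    · obtain ⟨s, hs0, hsB, _⟩ := key v hv0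
      have hsB' := hsB
      obtain ⟨_, x, hx, hx1⟩ := hsB'
      refine ⟨s • v, hsB, s⁻¹, by positivity, ?_, ?_⟩
      · rw [real_inner_smul_left] at hx1
        have h1 := hv x hx
        have h2 : ⟪v, x - o⟫_ℝ = s⁻¹ := by
          field_simp
          linarith
        linarith
      · rw [smul_smul, inv_mul_cancel₀ hs0.ne', one_smul]
  obtain ⟨h, hh, ε', hε', hint⟩ := hunif b hb
  have hε'0 : 0 < ε' := hε₁.trans_le hε'
  have h1 : b - ε • h.1 ∈ interior (polar K o) := by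
    have h2 : ε ≤ ε' := (min_le_left _ _).trans hε'
    have h3 := hPc.combo_self_interior_mem_interior hb.1 hint
      (a := 1 - ε / ε') (b := ε / ε') (by
        rw [sub_nonneg, div_le_one hε'0]; exact h2) (by positivity) (by ring)
    convert h3 using 1
    rw [smul_sub, smul_smul, div_mul_cancel₀ _ hε'0.ne', sub_smul, one_smul]
    abel
  have h2 : -(ε • h.1) ∈ interior (polar K o) := hsmall h hh ε hε0.le (min_le_right _ _)
  simp only [Set.mem_iUnion]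
  refine ⟨ε • h.1, Finset.mem_image_of_mem _ hh, v - ε • h.1, ?_, by simp⟩
  have h3 := hPc.interior h1 h2 hl0 (sub_nonneg.2 hl1) (by ring)
  convert h3 using 1
  rw [hvb, smul_sub, smul_neg, sub_smul, one_smul]
  abel

/-- `Sep.separate` in terms of `Sepd`. -/
theorem sepd_of_cover {K : Set E} {o : E} {n : ℕ} (ho : o ∈ interior K)
    (h : ∃ T : Finset E, T.card ≤ n ∧
      polar K o ⊆ ⋃ t ∈ T, (fun x => t + x) '' interior (polar K o)) : Sepd n K o := by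
  obtain ⟨T, hT, hc⟩ := h
  obtain ⟨H, h1, h2, h3⟩ := separate ho T hc
  exact ⟨H, h1.trans hT, h2, h3⟩

end Pool.Agent.R753.SJ
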