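import Pool.Agent.R753.SJ.A
import Pool.Agent.R753.Three

set_option autoImplicit false

/-!
# The polar body of an unconditional sum
-/

namespace Pool.Agent.R753.SJ

open scoped InnerProductSpace Topology
open Metric Pool.Agent.H985.Sep Pool.Agent.R753

section one

variable {E : Type*} [NormedAddCommGroup E] [InnerProductSpace ℝ E]

/-- The gauge of the polar body dominates the functional. -/
lemma inner_le_gauge {C : Set E} (hP0 : polar C 0 ∈ 𝓝 (0 : E)) (v : E) {y : E} (hy : y ∈ C) :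
    ⟪v, y⟫_ℝ ≤ gauge (polar C 0) v := by
  refine le_of_forall_gt_imp_ge_of_dense fun r hr => ?_
  obtain ⟨b, hb0, hbr, hvb⟩ := exists_lt_of_gauge_lt (absorbent_nhds_zero hP0) hr
  obtain ⟨w, hw, rfl⟩ := hvb
  have h1 := hw y hy
  rw [sub_zero] at h1
  simp only [real_inner_smul_left]
  nlinarith

lemma inner_le_mul_gauge {C : Set E} (hC0 : C ∈ 𝓝 (0 : E)) (hP0 : polar C 0 ∈ 𝓝 (0 : E))
    (v x : E) : ⟪v, x⟫_ℝ ≤ gauge (polar C 0) v * gauge C x := by
  have h0 : 0 ≤ gauge (polar C 0) v := gauge_nonneg v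
  have key : ∀ r : ℝ, gauge C x < r → ⟪v, x⟫_ℝ ≤ gauge (polar C 0) v * r := by
    intro r hr
    obtain ⟨b, hb0, hbr, hvb⟩ := exists_lt_of_gauge_lt (absorbent_nhds_zero hC0) hr
    obtain ⟨w, hw, rfl⟩ := hvb
    have h1 := inner_le_gauge hP0 v hw
    simp only [real_inner_smul_right]
    nlinarith [mul_le_mul_of_nonneg_left h1 hb0.le, mul_le_mul_of_nonneg_left hbr.le h0]
  by_contra hcon
  rw [not_le] at hcon
  have hlim : Filter.Tendsto (fun t : ℝ => gauge (polar C 0) v * (gauge C x + t)) (𝓝[>] 0)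
      (𝓝 (gauge (polar C 0) v * (gauge C x + 0))) :=
    (Continuous.tendsto (by fun_prop) 0).mono_left nhdsWithin_le_nhds
  rw [add_zero] at hlim
  have h2 := hlim.eventually_lt_const hcon
  have h3 : ∀ᶠ t : ℝ in 𝓝[>] 0, 0 < t := self_mem_nhdsWithin
  obtain ⟨t, ht, ht0⟩ := (h2.and h3).exists
  have := key (gauge C x + t) (by linarith)
  linarith

lemma exists_gauge_eq {C : Set E} (hCk : IsCompact C) (hC0 : C ∈ 𝓝 (0 : E))
    (hP0 : polar C 0 ∈ 𝓝 (0 : E)) (v : E) : ∃ y ∈ C, ⟪v, y⟫_ℝ = gauge (polar C 0) v := by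
  have h0C : (0 : E) ∈ C := mem_of_mem_nhds hC0
  obtain ⟨y, hy, hmax⟩ := hCk.exists_isMaxOn ⟨0, h0C⟩ (f := fun y => ⟪v, y⟫_ℝ) (by fun_prop)
  have hm0 : 0 ≤ ⟪v, y⟫_ℝ := by
    have : ⟪v, (0 : E)⟫_ℝ ≤ ⟪v, y⟫_ℝ := hmax h0C
    rwa [inner_zero_right] at this
  refine ⟨y, hy, le_antisymm (inner_le_gauge hP0 v hy) ?_⟩
  refine le_of_forall_gt_imp_ge_of_dense fun r hr => ?_
  have hr0 : 0 < r := hm0.trans_lt hr
  refine gauge_le_of_mem hr0.le ?_
  rw [Set.mem_smul_set]
  refine ⟨r⁻¹ • v, fun z hz => ?_, by rw [smul_smul, mul_inv_cancel₀ hr0.ne', one_smul]⟩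
  rw [sub_zero, real_inner_smul_left]
  have h1 : ⟪v, z⟫_ℝ ≤ ⟪v, y⟫_ℝ := hmax hz
  rw [inv_mul_le_iff₀ hr0]
  linarith

end one

/-- The dual profile. -/
def dual {ι : Type} [Fintype ι] (M : Set (ι → ℝ)) : Set (ι → ℝ) :=
  {b | ∀ a ∈ M, (∀ j, 0 ≤ a j) → ∑ j, |b j| * a j ≤ 1}

section dual

variable {ι : Type} [Fintype ι] {M : Set (ι → ℝ)}

lemma dual_closed : IsClosed (dual M) := by
  have : dual M = ⋂ a ∈ {a | a ∈ M ∧ ∀ j, 0 ≤ a j}, {b : ι → ℝ | ∑ j, |b j| * a j ≤ 1} := by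
    ext b
    simp [dual]
  rw [this]
  refine isClosed_biInter fun a _ => isClosed_le ?_ continuous_const
  fun_prop

lemma dual_convex : Convex ℝ (dual M) := by
  intro b hb c hc s t hs ht hst a ha ha0
  have h1 := hb a ha ha0
  have h2 := hc a ha ha0
  calc ∑ j, |(s • b + t • c) j| * a j ≤ ∑ j, (s * (|b j| * a j) + t * (|c j| * a j)) := by
        refine Finset.sum_le_sum fun j _ => ?_
        have h3 : |(s • b + t • c) j| ≤ s * |b j| + t * |c j| := by
          simp only [Pi.add_apply, Pi.smul_apply, smul_eq_mul]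
          refine (abs_add_le _ _).trans ?_
          rw [abs_mul, abs_mul, abs_of_nonneg hs, abs_of_nonneg ht]
        nlinarith [mul_le_mul_of_nonneg_right h3 (ha0 j)]
    _ = s * ∑ j, |b j| * a j + t * ∑ j, |c j| * a j := by
        rw [Finset.sum_add_distrib, Finset.mul_sum, Finset.mul_sum]
    _ ≤ 1 := by nlinarith

lemma dual_sol : Sol (dual M) := by
  intro b hb c hc a ha ha0
  refine le_trans (Finset.sum_le_sum fun j _ => ?_) (hb a ha ha0)
  refine mul_le_mul_of_nonneg_right ?_ (ha0 j)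
  have := hc j
  rw [Set.mem_uIcc] at this
  rcases this with ⟨h1, h2⟩ | ⟨h1, h2⟩
  · exact abs_le_abs_of_nonneg h1 h2
  · exact abs_le_abs_of_nonpos h2 h1

lemma dual_int (hMb : Bornology.IsBounded M) : (0 : ι → ℝ) ∈ interior (dual M) := by
  obtain ⟨R, hR⟩ := hMb.exists_norm_le
  rw [mem_interior]
  refine ⟨ball 0 (1 / ((|R| + 1) * (Fintype.card ι + 1))), ?_, isOpen_ball, by
    simp; positivity⟩
  intro b hb a ha ha0
  rw [mem_ball_zero_iff] at hb
  calc ∑ j, |b j| * a j ≤ ∑ _j : ι, 1 / ((|R| + 1) * (Fintype.card ι + 1)) * (|R| + 1) := by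
        refine Finset.sum_le_sum fun j _ => ?_
        have h1 : |b j| ≤ 1 / ((|R| + 1) * (Fintype.card ι + 1)) := by
          have := norm_le_pi_norm b j
          rw [Real.norm_eq_abs] at this
          exact this.trans hb.le
        have h2 : a j ≤ |R| + 1 := by
          have h3 := norm_le_pi_norm a j
          have h4 := hR a ha
          have h5 := le_abs_self R
          rw [Real.norm_eq_abs] at h3
          have h6 := le_abs_self (a j)
          linarith
        exact mul_le_mul h1 h2 (ha0 j) (by positivity)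
    _ = Fintype.card ι / (Fintype.card ι + 1) := by
        rw [Finset.sum_const, Finset.card_univ, nsmul_eq_mul]
        field_simp
    _ ≤ 1 := by
        rw [div_le_one (by positivity)]
        linarith

end dual

section sum

variable {ι : Type} [Fintype ι] {E : ι → Type} [∀ j, NormedAddCommGroup (E j)]
  [∀ j, InnerProductSpace ℝ (E j)] [∀ j, FiniteDimensional ℝ (E j)]

/-- the polar body of an `M`-sum -/
lemma polar_sum (C : ∀ j, Set (E j)) (hCk : ∀ j, IsCompact (C j))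
    (hC0 : ∀ j, (0 : E j) ∈ interior (C j)) (M : Set (ι → ℝ)) (hsol : Sol M)
    (K : Set (PiLp 2 E)) (hK : K = {x | (fun j => gauge (C j) (x j)) ∈ M}) :
    polar K 0 = {v | (fun j => gauge (polar (C j) 0) (v j)) ∈ dual M} := by
  have hn : ∀ j, C j ∈ 𝓝 (0 : E j) := fun j => mem_interior_iff_mem_nhds.1 (hC0 j)
  have hP : ∀ j, polar (C j) 0 ∈ 𝓝 (0 : E j) := fun j =>
    mem_interior_iff_mem_nhds.1 (mem_int (hCk j) fun y _ => by simp)
  ext v
  constructor
  · intro hv a ha ha0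
    choose y hyC hy using fun j => exists_gauge_eq (hCk j) (hn j) (hP j) (v j)
    have hx : (WithLp.toLp 2 (fun j => a j • y j) : PiLp 2 E) ∈ K := by
      rw [hK]
      refine hsol a ha _ fun j => ?_
      rw [Set.mem_uIcc]
      left
      refine ⟨gauge_nonneg _, ?_⟩
      show gauge (C j) (a j • y j) ≤ a j
      rw [gauge_smul_of_nonneg (ha0 j), smul_eq_mul]
      exact mul_le_of_le_one_right (ha0 j) (gauge_le_one_of_mem (hyC j))
    have h1 := hv _ hx
    rw [sub_zero, PiLp.inner_apply] at h1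
    refine le_trans (le_of_eq (Finset.sum_congr rfl fun j _ => ?_)) h1
    show |gauge (polar (C j) 0) (v j)| * a j = ⟪v j, a j • y j⟫_ℝ
    rw [abs_of_nonneg (gauge_nonneg _), real_inner_smul_right, hy j]
    ring
  · intro hv y hy
    rw [hK] at hy
    rw [sub_zero, PiLp.inner_apply]
    refine le_trans (Finset.sum_le_sum fun j _ => ?_)
      (hv (fun j => gauge (C j) (y j)) hy fun j => gauge_nonneg _)
    show ⟪v j, y j⟫_ℝ ≤ |gauge (polar (C j) 0) (v j)| * gauge (C j) (y j)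
    rw [abs_of_nonneg (gauge_nonneg _)]
    exact inner_le_mul_gauge (hn j) (hP j) _ _

/-- Transport of coverings through a continuous linear equivalence. -/
lemma cover_equiv {V W : Type*} [AddCommGroup V] [TopologicalSpace V] [Module ℝ V]
    [AddCommGroup W] [TopologicalSpace W] [Module ℝ W] (e : V ≃L[ℝ] W) (P : Set V) (n : ℕ)
    (h : ∃ T : Finset W, T.card ≤ n ∧ e '' P ⊆ ⋃ t ∈ T, (fun x => t + x) '' interior (e '' P)) :
    ∃ T : Finset V, T.card ≤ n ∧ P ⊆ ⋃ t ∈ T, (fun x => t + x) '' interior P := by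
  classical
  obtain ⟨T, hT, hc⟩ := h
  refine ⟨T.image e.symm, Finset.card_image_le.trans hT, fun v hv => ?_⟩
  have h1 := hc (Set.mem_image_of_mem e hv)
  simp only [Set.mem_iUnion] at h1 ⊢
  obtain ⟨t, ht, x, hx, hxe⟩ := h1
  refine ⟨e.symm t, Finset.mem_image_of_mem _ ht, e.symm x, ?_, ?_⟩
  · have h2 : interior (e '' P) = e '' interior P := (e.toHomeomorph.image_interior P).symm
    rw [h2] at hx
    obtain ⟨z, hz, rfl⟩ := hx
    simpa using hz
  · simp only at hxe ⊢
    rw [← map_add, hxe, e.symm_apply_apply]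

end sum

end Pool.Agent.R753.SJ
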