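import Pool.Agent.R753.SJ.B

set_option autoImplicit false

/-!
# Separating the faces of unconditional sums
-/

namespace Pool.Agent.R753.SJ

open scoped InnerProductSpace Topology
open Metric Pool.Agent.H985.Sep Pool.Agent.R753

section sum

variable {ι : Type} [Fintype ι] {E : ι → Type} [∀ j, NormedAddCommGroup (E j)]
  [∀ j, InnerProductSpace ℝ (E j)] [∀ j, FiniteDimensional ℝ (E j)]

/-- the sum is a convex body -/
lemma sum_body (C : ∀ j, Set (E j)) (hCc : ∀ j, Convex ℝ (C j)) (hCk : ∀ j, IsCompact (C j))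
    (hC0 : ∀ j, (0 : E j) ∈ interior (C j)) (M : Set (ι → ℝ)) (hMc : Convex ℝ M)
    (hMk : IsCompact M) (hM0 : (0 : ι → ℝ) ∈ interior M) (hsol : Sol M)
    (K : Set (PiLp 2 E)) (hK : K = {x | (fun j => gauge (C j) (x j)) ∈ M}) :
    Convex ℝ K ∧ IsCompact K ∧ (0 : PiLp 2 E) ∈ interior K := by
  classical
  set e : PiLp 2 E ≃L[ℝ] (∀ j, E j) := PiLp.continuousLinearEquiv 2 ℝ E with he
  set K' : Set (∀ j, E j) := {x | (fun j => gauge (C j) (x j)) ∈ M} with hK'
  have hKK : K = e ⁻¹' K' := by rw [hK]; rfl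
  have hb : Bornology.IsBounded K' := by
    obtain ⟨R, hR⟩ := hMk.isBounded.exists_norm_le
    choose S hS using fun j => (hCk j).isBounded.exists_norm_le
    refine (Metric.isBounded_iff_subset_closedBall 0).2 ⟨(|R| + 1) * ∑ j, |S j|, fun x hx => ?_⟩
    rw [mem_closedBall_zero_iff, pi_norm_le_iff_of_nonneg (by positivity)]
    intro j
    have h1 : gauge (C j) (x j) < |R| + 1 := by
      have h2 := norm_le_pi_norm (fun j => gauge (C j) (x j)) j
      rw [Real.norm_eq_abs] at h2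
      have h3 := hR _ hx
      have h4 := le_abs_self (gauge (C j) (x j))
      have h5 := le_abs_self R
      linarith
    obtain ⟨b, hb0, hb1, z, hz, hzx⟩ := exists_lt_of_gauge_lt
      (absorbent_nhds_zero (mem_interior_iff_mem_nhds.1 (hC0 j))) h1
    rw [← hzx]
    simp only
    rw [norm_smul, Real.norm_eq_abs, abs_of_pos hb0]
    have h6 : ‖z‖ ≤ ∑ j, |S j| := by
      refine ((hS j z hz).trans (le_abs_self _)).trans ?_
      exact Finset.single_le_sum (f := fun j => |S j|) (fun i _ => abs_nonneg _)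
        (Finset.mem_univ j)
    exact mul_le_mul hb1.le h6 (norm_nonneg _) (by positivity)
  obtain ⟨h1, h2, h3, -⟩ := body C hCc hC0 M hMc hMk.isClosed hM0 hsol K' rfl hb
  refine ⟨?_, ?_, ?_⟩
  · rw [hKK]
    exact h1.linear_preimage e.toLinearEquiv.toLinearMap
  · rw [hKK]
    exact e.toHomeomorph.isCompact_preimage.2 h2
  · rw [hKK]
    have h4 : interior (e ⁻¹' K') = e ⁻¹' interior K' := (e.toHomeomorph.preimage_interior K').symm
    rw [h4]
    simpa using h3

/-- From a covering of the dual sum to separating hyperplanes of the sum. -/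
theorem assemble (C : ∀ j, Set (E j)) (hCc : ∀ j, Convex ℝ (C j)) (hCk : ∀ j, IsCompact (C j))
    (hC0 : ∀ j, (0 : E j) ∈ interior (C j)) (M : Set (ι → ℝ)) (hMc : Convex ℝ M)
    (hMk : IsCompact M) (hM0 : (0 : ι → ℝ) ∈ interior M) (hsol : Sol M)
    (K : Set (PiLp 2 E)) (hK : K = {x | (fun j => gauge (C j) (x j)) ∈ M}) (n : ℕ)
    (hcov : ∀ K' : Set (∀ j, E j), K' = {x | (fun j => gauge (polar (C j) 0) (x j)) ∈ dual M} →
      Bornology.IsBounded K' →
      ∃ T : Finset (∀ j, E j), T.card ≤ n ∧ K' ⊆ ⋃ t ∈ T, (fun x => t + x) '' interior K') :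
    Sepd n K 0 := by
  classical
  set e : PiLp 2 E ≃L[ℝ] (∀ j, E j) := PiLp.continuousLinearEquiv 2 ℝ E with he
  obtain ⟨-, hKk, h0⟩ := sum_body C hCc hCk hC0 M hMc hMk hM0 hsol K hK
  have hpol := polar_sum C hCk hC0 M hsol K hK
  refine sepd_of_cover h0 (cover_equiv e _ n ?_)
  refine hcov _ ?_ ?_
  · rw [hpol]
    ext x
    constructor
    · rintro ⟨v, hv, rfl⟩
      exact hv
    · intro hx
      exact ⟨e.symm x, by simpa [he] using hx, by simp⟩
  · exact ((isCompact_polar h0).image e.continuous).isBounded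

end sum

/-- **Three bodies.** -/
theorem three {E : Fin 3 → Type} [∀ j, NormedAddCommGroup (E j)]
    [∀ j, InnerProductSpace ℝ (E j)] [∀ j, FiniteDimensional ℝ (E j)]
    (C : ∀ j, Set (E j)) (hCc : ∀ j, Convex ℝ (C j)) (hCk : ∀ j, IsCompact (C j))
    (hC0 : ∀ j, (0 : E j) ∈ interior (C j)) (N : Fin 3 → ℕ) (hN : ∀ j, 2 ≤ N j)
    (hs : ∀ j, Sepd (N j) (C j) 0) (M : Set (Fin 3 → ℝ)) (hMc : Convex ℝ M)
    (hMk : IsCompact M) (hM0 : (0 : Fin 3 → ℝ) ∈ interior M) (hsol : Sol M)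
    (K : Set (PiLp 2 E)) (hK : K = {x | (fun j => gauge (C j) (x j)) ∈ M}) :
    Convex ℝ K ∧ IsCompact K ∧ (0 : PiLp 2 E) ∈ interior K ∧ Sepd (N 0 * N 1 * N 2) K 0 := by
  obtain ⟨h1, h2, h3⟩ := sum_body C hCc hCk hC0 M hMc hMk hM0 hsol K hK
  refine ⟨h1, h2, h3, assemble C hCc hCk hC0 M hMc hMk hM0 hsol K hK _ fun K' hK' hb => ?_⟩
  have h4 := (Three.three (fun j => polar (C j) 0) (fun j => convex_polar _ _)
    (fun j => isCompact_polar (hC0 j)) (fun j => mem_int (hCk j) fun y _ => by simp) N hN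
    (fun j => cover (hCk j) (hC0 j) (by have := hN j; omega) (hs j)) (dual M) dual_convex
    dual_closed (dual_int hMk.isBounded) dual_sol K' hK' hb).2.2.2
  rw [Fin.prod_univ_three] at h4
  exact h4

end Pool.Agent.R753.SJ
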