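import Pool.Agent.R753.SJ.A
import Pool.Agent.R753.Mono

set_option autoImplicit false
set_option linter.unusedSectionVars false

/-!
# Bodies from which a hyperplane through `o` cuts off a pyramid
-/

namespace Pool.Agent.R753.SJ

open scoped InnerProductSpace Topology
open Metric Pool.Agent.H985.Sep Pool.Agent.R753

variable {E : Type} [NormedAddCommGroup E] [InnerProductSpace ℝ E] [FiniteDimensional ℝ E]

/-- The section of `K` by the hyperplane through `o` with normal vector `e`. -/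
def sec (K : Set E) (o e : E) : Set (Submodule.span ℝ {e})ᗮ := {w | o + (w : E) ∈ K}

omit [FiniteDimensional ℝ E] in
lemma inner_e {e : E} (y : (Submodule.span ℝ {e})ᗮ) : ⟪e, (y : E)⟫_ℝ = 0 :=
  Submodule.mem_orthogonal_singleton_iff_inner_right.1 y.2

omit [FiniteDimensional ℝ E] in
lemma inner_e' {e : E} (y : (Submodule.span ℝ {e})ᗮ) : ⟪(y : E), e⟫_ℝ = 0 := by
  rw [real_inner_comm]; exact inner_e y

/-- the projection along `e` -/
noncomputable def pr {e : E} (v : E) : (Submodule.span ℝ {e})ᗮ :=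
  ⟨v - (⟪v, e⟫_ℝ / ⟪e, e⟫_ℝ) • e, by
    rw [Submodule.mem_orthogonal_singleton_iff_inner_right, inner_sub_right,
      real_inner_smul_right, real_inner_comm]
    rcases eq_or_ne e 0 with rfl | h
    · simp
    · have : ⟪e, e⟫_ℝ ≠ 0 := by simpa using h
      field_simp
      ring⟩

/-- The chart `(x, y) ↦ v` with `pr v = y` and `1 - ⟪v, q⟫ = x`. -/
noncomputable def Ps (e q : E) (p : (Fin 1 → ℝ) × (Submodule.span ℝ {e})ᗮ) : E :=
  (p.2 : E) + ((1 - p.1 0 - ⟪(p.2 : E), q⟫_ℝ) / ⟪e, q⟫_ℝ) • e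

/-- its linear part -/
noncomputable def La (e q : E) (p : (Fin 1 → ℝ) × (Submodule.span ℝ {e})ᗮ) : E :=
  (p.2 : E) + ((- p.1 0 - ⟪(p.2 : E), q⟫_ℝ) / ⟪e, q⟫_ℝ) • e

/-- the inverse chart -/
noncomputable def Ph (e q : E) (v : E) : (Fin 1 → ℝ) × (Submodule.span ℝ {e})ᗮ :=
  (fun _ => 1 - ⟪v, q⟫_ℝ, pr v)

lemma Ps_Ph {e q : E} (h : ⟪e, q⟫_ℝ ≠ 0) (v : E) : Ps e q (Ph e q v) = v := by
  have he : e ≠ 0 := by rintro rfl; simp at h
  have hee : ⟪e, e⟫_ℝ ≠ 0 := by simpa using he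
  simp only [Ps, Ph, pr]
  rw [inner_sub_left, real_inner_smul_left]
  have : (1 - (1 - ⟪v, q⟫_ℝ) - (⟪v, q⟫_ℝ - ⟪v, e⟫_ℝ / ⟪e, e⟫_ℝ * ⟪e, q⟫_ℝ)) / ⟪e, q⟫_ℝ =
      ⟪v, e⟫_ℝ / ⟪e, e⟫_ℝ := by
    field_simp
    ring
  rw [this]
  abel

lemma Ph_Ps {e q : E} (h : ⟪e, q⟫_ℝ ≠ 0) (p : (Fin 1 → ℝ) × (Submodule.span ℝ {e})ᗮ) :
    Ph e q (Ps e q p) = p := by
  have he : e ≠ 0 := by rintro rfl; simp at h
  have hee : ⟪e, e⟫_ℝ ≠ 0 := by simpa using he
  refine Prod.ext ?_ ?_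
  · funext i
    fin_cases i
    simp only [Ps, Ph]
    rw [inner_add_left, real_inner_smul_left]
    field_simp
    simp
  · apply Subtype.ext
    simp only [Ps, Ph, pr]
    rw [inner_add_left, real_inner_smul_left, inner_e']
    rw [zero_add, mul_div_assoc, div_self hee, mul_one]
    abel

lemma Ps_cont {e q : E} : Continuous (Ps e q) := by
  unfold Ps
  fun_prop

lemma Ph_cont {e q : E} : Continuous (Ph e q) := by
  unfold Ph pr
  fun_prop

/-- the chart as a homeomorphism -/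
noncomputable def ch {e q : E} (h : ⟪e, q⟫_ℝ ≠ 0) :
    (Fin 1 → ℝ) × (Submodule.span ℝ {e})ᗮ ≃ₜ E where
  toFun := Ps e q
  invFun := Ph e q
  left_inv := Ph_Ps h
  right_inv := Ps_Ph h
  continuous_toFun := Ps_cont
  continuous_invFun := Ph_cont

lemma Ps_add {e q : E} (t p : (Fin 1 → ℝ) × (Submodule.span ℝ {e})ᗮ) :
    Ps e q (t + p) = La e q t + Ps e q p := by
  simp only [Ps, La, Prod.fst_add, Prod.snd_add, Pi.add_apply, Submodule.coe_add, inner_add_left]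
  have : (1 - (t.1 0 + p.1 0) - (⟪(t.2 : E), q⟫_ℝ + ⟪(p.2 : E), q⟫_ℝ)) / ⟪e, q⟫_ℝ =
      (-t.1 0 - ⟪(t.2 : E), q⟫_ℝ) / ⟪e, q⟫_ℝ + (1 - p.1 0 - ⟪(p.2 : E), q⟫_ℝ) / ⟪e, q⟫_ℝ := by
    ring
  rw [this, add_smul]
  abel

lemma Ps_comb {e q : E} (p p' : (Fin 1 → ℝ) × (Submodule.span ℝ {e})ᗮ) {s t : ℝ}
    (hst : s + t = 1) : Ps e q (s • p + t • p') = s • Ps e q p + t • Ps e q p' := by
  simp only [Ps, Prod.fst_add, Prod.snd_add, Prod.smul_fst, Prod.smul_snd, Pi.add_apply,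
    Pi.smul_apply, smul_eq_mul, Submodule.coe_add, Submodule.coe_smul, inner_add_left,
    real_inner_smul_left, smul_add, smul_smul]
  have : (1 - (s * p.1 0 + t * p'.1 0) - (s * ⟪(p.2 : E), q⟫_ℝ + t * ⟪(p'.2 : E), q⟫_ℝ)) /
      ⟪e, q⟫_ℝ = s * ((1 - p.1 0 - ⟪(p.2 : E), q⟫_ℝ) / ⟪e, q⟫_ℝ) +
        t * ((1 - p'.1 0 - ⟪(p'.2 : E), q⟫_ℝ) / ⟪e, q⟫_ℝ) := by
    have e1 : t = 1 - s := by linarith
    rw [e1]
    ring
  rw [this, add_smul]
  abel

/-- **Pyramids**, in terms of coverings of the polar bodies. -/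
theorem pyr {K : Set E} (hK : Convex ℝ K) (hKc : IsCompact K) {o : E} (ho : o ∈ interior K)
    {e a : E} (ha : a ∈ K) (he : ⟪e, a - o⟫_ℝ < 0)
    (hpyr : ∀ x ∈ K, ⟪e, x - o⟫_ℝ ≤ 0 →
      x ∈ convexHull ℝ (insert a {y | y ∈ K ∧ ⟪e, y - o⟫_ℝ = 0})) {N : ℕ}
    (hcov : ∃ T : Finset (Submodule.span ℝ {e})ᗮ, T.card ≤ N ∧
      polar (sec K o e) 0 ⊆ ⋃ t ∈ T, (fun y => t + y) '' interior (polar (sec K o e) 0)) :
    ∃ T : Finset E, T.card ≤ 2 * N ∧
      polar K o ⊆ ⋃ t ∈ T, (fun x => t + x) '' interior (polar K o) := by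
  classical
  set q : E := a - o with hq
  have hq0 : ⟪e, q⟫_ℝ ≠ 0 := he.ne
  -- the value on the hull
  have hull : ∀ v : E, ⟪v, q⟫_ℝ ≤ 1 → (∀ y ∈ K, ⟪e, y - o⟫_ℝ = 0 → ⟪v, y - o⟫_ℝ ≤ 1) →
      ∀ x ∈ K, ⟪e, x - o⟫_ℝ ≤ 0 → ⟪v, x - o⟫_ℝ ≤ 1 := by
    intro v h1 h2 x hx hx0
    have hconv : Convex ℝ {z : E | ⟪v, z - o⟫_ℝ ≤ 1} := by
      intro z hz w hw s t hs ht hst
      have e1 : s • z + t • w - o = s • (z - o) + t • (w - o) := by
        have : o = s • o + t • o := by rw [← add_smul, hst, one_smul]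
        nth_rewrite 1 [this]
        rw [smul_sub, smul_sub]
        abel
      show ⟪v, s • z + t • w - o⟫_ℝ ≤ 1
      rw [e1, inner_add_right, real_inner_smul_right, real_inner_smul_right]
      have h3 : ⟪v, z - o⟫_ℝ ≤ 1 := hz
      have h4 : ⟪v, w - o⟫_ℝ ≤ 1 := hw
      nlinarith
    refine convexHull_min ?_ hconv (hpyr x hx hx0)
    rintro z (rfl | ⟨hz, hz0⟩)
    · exact h1
    · exact h2 z hz hz0
  -- values over the section
  have hsec : ∀ v : E, (∀ y ∈ K, ⟪e, y - o⟫_ℝ = 0 → ⟪v, y - o⟫_ℝ ≤ 1) ↔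
      (pr v : (Submodule.span ℝ {e})ᗮ) ∈ polar (sec K o e) 0 := by
    intro v
    have key : ∀ z : (Submodule.span ℝ {e})ᗮ, ⟪(pr v : (Submodule.span ℝ {e})ᗮ), z - 0⟫_ℝ =
        ⟪v, (z : E)⟫_ℝ := by
      intro z
      rw [sub_zero, Submodule.coe_inner]
      show ⟪v - (⟪v, e⟫_ℝ / ⟪e, e⟫_ℝ) • e, (z : E)⟫_ℝ = _
      rw [inner_sub_left, real_inner_smul_left, inner_e, mul_zero, sub_zero]
    constructor
    · intro h z hz
      rw [key]
      have h1 := h (o + (z : E)) hz (by rw [add_sub_cancel_left]; exact inner_e z)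
      rwa [add_sub_cancel_left] at h1
    · intro h y hy hy0
      have hmem : y - o ∈ (Submodule.span ℝ {e})ᗮ :=
        Submodule.mem_orthogonal_singleton_iff_inner_right.2 hy0
      have h1 := h ⟨y - o, hmem⟩ (by show o + (y - o) ∈ K; rwa [add_sub_cancel])
      rw [key] at h1
      exact h1
  set P : Set E := polar K o with hP
  set K' : Set ((Fin 1 → ℝ) × (Submodule.span ℝ {e})ᗮ) := Ps e q ⁻¹' P with hK'
  have hPv : Convex ℝ P := convex_polar K o
  have hPk : IsCompact P := isCompact_polar ho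
  have hint : interior K' = Ps e q ⁻¹' interior P := ((ch hq0).preimage_interior P).symm
  have h1 : Convex ℝ K' := by
    intro p hp p' hp' s t hs ht hst
    show Ps e q (s • p + t • p') ∈ P
    rw [Ps_comb _ _ hst]
    exact hPv hp hp' hs ht hst
  have h2 : IsCompact K' := (ch hq0).isCompact_preimage.2 hPk
  have h3 : (interior K').Nonempty := by
    rw [hint]
    obtain ⟨v, hv⟩ := interior_polar_nonempty hKc ho
    exact ⟨Ph e q v, by show Ps e q (Ph e q v) ∈ interior P; rw [Ps_Ph hq0]; exact hv⟩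
  have hfst : ∀ p : (Fin 1 → ℝ) × (Submodule.span ℝ {e})ᗮ, ⟪Ps e q p, q⟫_ℝ = 1 - p.1 0 := by
    intro p
    simp only [Ps]
    rw [inner_add_left, real_inner_smul_left]
    field_simp
    ring
  have hpr : ∀ p : (Fin 1 → ℝ) × (Submodule.span ℝ {e})ᗮ, pr (Ps e q p) = p.2 := by
    intro p
    have := Ph_Ps hq0 p
    exact congrArg Prod.snd this
  have h4 : ∀ p ∈ K', ∀ i, 0 ≤ p.1 i := by
    intro p hp i
    have h5 := hp a ha
    rw [hfst] at h5
    fin_cases i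
    show 0 ≤ p.1 0
    linarith
  have h5 : ∀ p ∈ K', ∀ x' : Fin 1 → ℝ, (∀ i, 0 ≤ x' i) → (∀ i, x' i ≤ p.1 i) →
      (x', p.2) ∈ K' := by
    intro p hp x' hx0 hx1
    have hx0' := hx0 0
    have hx1' := hx1 0
    show Ps e q (x', p.2) ∈ P
    have e1 : Ps e q (x', p.2) = Ps e q p + ((p.1 0 - x' 0) / ⟪e, q⟫_ℝ) • e := by
      simp only [Ps]
      rw [add_assoc, ← add_smul]
      congr 2
      ring
    have hneg : (p.1 0 - x' 0) / ⟪e, q⟫_ℝ ≤ 0 :=
      div_nonpos_of_nonneg_of_nonpos (by linarith) he.le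
    intro x hx
    rcases le_total ⟪e, x - o⟫_ℝ 0 with h | h
    · refine hull _ ?_ ?_ x hx h
      · rw [hfst]
        show 1 - x' 0 ≤ 1
        linarith
      · rw [hsec, hpr]
        show p.2 ∈ _
        rw [← hpr p, ← hsec]
        exact fun y hy _ => hp y hy
    · rw [e1, inner_add_left, real_inner_smul_left]
      have := hp x hx
      have h6 := mul_nonpos_of_nonpos_of_nonneg hneg h
      linarith
  have h6 : {y : (Submodule.span ℝ {e})ᗮ | ((0 : Fin 1 → ℝ), y) ∈ K'} = polar (sec K o e) 0 := by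
    ext y
    constructor
    · intro hy
      have h7 : (pr (Ps e q ((0 : Fin 1 → ℝ), y)) : (Submodule.span ℝ {e})ᗮ) ∈
          polar (sec K o e) 0 := by
        rw [← hsec]
        exact fun z hz _ => hy z hz
      rwa [hpr] at h7
    · intro hy
      set v := Ps e q ((0 : Fin 1 → ℝ), y) with hv
      have hv1 : ⟪v, q⟫_ℝ = 1 := by
        rw [hv, hfst]; simp
      have hv2 : ∀ z ∈ K, ⟪e, z - o⟫_ℝ = 0 → ⟪v, z - o⟫_ℝ ≤ 1 := by
        rw [hsec, hv, hpr]
        exact hy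
      intro x hx
      rcases le_total ⟪e, x - o⟫_ℝ 0 with h | h
      · exact hull v hv1.le hv2 x hx h
      · -- the point of the segment in the hyperplane
        set α := ⟪e, x - o⟫_ℝ with hα
        set κ := -⟪e, q⟫_ℝ with hκ
        have hκ0 : 0 < κ := by rw [hκ]; linarith
        set l := κ / (κ + α) with hl
        have hl0 : 0 < l := by positivity
        have hl1 : l ≤ 1 := by rw [hl, div_le_one (by positivity)]; linarith
        have hz : (1 - l) • a + l • x ∈ K := hK ha hx (by linarith) hl0.le (by ring)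
        have e1 : (1 - l) • a + l • x - o = (1 - l) • q + l • (x - o) := by
          rw [hq, smul_sub, smul_sub, sub_smul, sub_smul, one_smul, one_smul]
          abel
        have hz0 : ⟪e, (1 - l) • a + l • x - o⟫_ℝ = 0 := by
          rw [e1, inner_add_right, real_inner_smul_right, real_inner_smul_right, ← hα]
          have : ⟪e, q⟫_ℝ = -κ := by rw [hκ]; ring
          rw [this, hl]
          field_simp
          ring
        have h7 := hv2 _ hz hz0
        rw [e1, inner_add_right, real_inner_smul_right, real_inner_smul_right, hv1] at h7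
        have h8 : l * ⟪v, x - o⟫_ℝ ≤ l * 1 := by linarith
        exact le_of_mul_le_mul_left h8 hl0
  obtain ⟨T, hT, hc⟩ := Mono.fib h1 h2 h3 h4 h5 (N := N) (by rw [h6]; exact hcov)
  refine ⟨T.image (La e q), Finset.card_image_le.trans (by simpa using hT), fun v hv => ?_⟩
  have hv' : Ph e q v ∈ K' := by
    show Ps e q (Ph e q v) ∈ P
    rw [Ps_Ph hq0]; exact hv
  obtain ⟨t, ht, x, hx, hxe⟩ := Set.mem_iUnion₂.1 (hc hv')
  refine Set.mem_iUnion₂.2 ⟨La e q t, Finset.mem_image_of_mem _ ht, Ps e q x, ?_, ?_⟩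
  · rw [hint] at hx
    exact hx
  · show La e q t + Ps e q x = v
    rw [← Ps_add]
    have : t + x = Ph e q v := hxe
    rw [this, Ps_Ph hq0]

end Pool.Agent.R753.SJ
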