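import Pool.Agent.R753.SJ.B
import Pool.Agent.R753.SJ.D
import Pool.Agent.W677.Summand3

set_option autoImplicit false
set_option linter.unusedSectionVars false

/-!
# Pyramids: the section, and dimensions at most three
-/

namespace Pool.Agent.R753.SJ

open scoped InnerProductSpace Topology
open Metric Pool.Agent.H985.Sep Pool.Agent.R753 Module

variable {E : Type} [NormedAddCommGroup E] [InnerProductSpace ℝ E] [FiniteDimensional ℝ E]

lemma sec_int {K : Set E} {o e : E} (ho : o ∈ interior K) : 0 ∈ interior (sec K o e) := by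
  have hc : Continuous fun w : (Submodule.span ℝ {e})ᗮ => o + (w : E) := by fun_prop
  refine mem_interior.2 ⟨(fun w : (Submodule.span ℝ {e})ᗮ => o + (w : E)) ⁻¹' interior K, ?_,
    isOpen_interior.preimage hc, ?_⟩
  · intro w hw
    exact interior_subset (s := K) hw
  · simpa using ho

lemma sec_compact {K : Set E} (hKc : IsCompact K) {o e : E} : IsCompact (sec K o e) := by
  have hc : Continuous fun w : (Submodule.span ℝ {e})ᗮ => o + (w : E) := by fun_prop
  refine Metric.isCompact_of_isClosed_isBounded (hKc.isClosed.preimage hc) ?_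
  obtain ⟨R, hR⟩ := hKc.isBounded.exists_norm_le
  refine (Metric.isBounded_iff_subset_closedBall 0).2 ⟨R + ‖o‖, fun w hw => ?_⟩
  rw [mem_closedBall_zero_iff]
  have h1 := hR _ hw
  have h2 : ‖(w : E)‖ ≤ ‖o + (w : E)‖ + ‖o‖ := by
    have := norm_sub_le (o + (w : E)) o
    rwa [add_sub_cancel_left] at this
  have h3 : ‖w‖ = ‖(w : E)‖ := rfl
  linarith

lemma sec_convex {K : Set E} (hK : Convex ℝ K) {o e : E} : Convex ℝ (sec K o e) := by
  intro v hv w hw s t hs ht hst
  show o + ((s • v + t • w : (Submodule.span ℝ {e})ᗮ) : E) ∈ K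
  have : o + ((s • v + t • w : (Submodule.span ℝ {e})ᗮ) : E) = s • (o + (v : E)) +
      t • (o + (w : E)) := by
    have h1 : o = s • o + t • o := by rw [← add_smul, hst, one_smul]
    rw [Submodule.coe_add, Submodule.coe_smul, Submodule.coe_smul, smul_add, smul_add]
    nth_rewrite 1 [h1]
    abel
  rw [this]
  exact hK hv hw hs ht hst

/-- the pyramid bound in terms of hyperplanes -/
theorem pyr_sep {K : Set E} (hK : Convex ℝ K) (hKc : IsCompact K) {o : E} (ho : o ∈ interior K)
    {e a : E} (ha : a ∈ K) (he : ⟪e, a - o⟫_ℝ < 0)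
    (hpyr : ∀ x ∈ K, ⟪e, x - o⟫_ℝ ≤ 0 →
      x ∈ convexHull ℝ (insert a {y | y ∈ K ∧ ⟪e, y - o⟫_ℝ = 0})) {N : ℕ} (hN : 1 ≤ N)
    (hs : Sepd N (sec K o e) 0) : Sepd (2 * N) K o :=
  sepd_of_cover ho (pyr hK hKc ho ha he hpyr
    (cover (sec_compact hKc) (sec_int ho) hN hs))

/-- planar bodies -/
lemma cover_le_two {V : Type} [NormedAddCommGroup V] [InnerProductSpace ℝ V]
    [FiniteDimensional ℝ V] {d : ℕ} (hd : finrank ℝ V = d) (hd2 : d ≤ 2) {P : Set V}
    (h1 : Convex ℝ P) (h2 : IsCompact P) (h3 : (interior P).Nonempty) :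
    ∃ T : Finset V, T.card ≤ 2 ^ d ∧ P ⊆ ⋃ t ∈ T, (fun x => t + x) '' interior P := by
  let f : V ≃ₗᵢ[ℝ] EuclideanSpace ℝ (Fin d) := ((stdOrthonormalBasis ℝ V).reindex (finCongr hd)).repr
  refine cover_equiv f.toContinuousLinearEquiv P _ ?_
  refine Pool.Agent.W677.Summand.body_le_two hd2 ⟨?_, ?_, ?_⟩
  · exact h1.linear_image f.toLinearEquiv.toLinearMap
  · exact h2.image f.continuous
  · have : interior (f.toContinuousLinearEquiv '' P) = f.toContinuousLinearEquiv '' interior P :=
      (f.toContinuousLinearEquiv.toHomeomorph.image_interior P).symm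
    rw [this]
    exact h3.image _

/-- the pyramid bound in dimensions at most three -/
theorem pyr_three {K : Set E} (hK : Convex ℝ K) (hKc : IsCompact K) {o : E} (ho : o ∈ interior K)
    {e a : E} (ha : a ∈ K) (he : ⟪e, a - o⟫_ℝ < 0)
    (hpyr : ∀ x ∈ K, ⟪e, x - o⟫_ℝ ≤ 0 →
      x ∈ convexHull ℝ (insert a {y | y ∈ K ∧ ⟪e, y - o⟫_ℝ = 0}))
    (hd : finrank ℝ E ≤ 3) : Sepd (2 ^ finrank ℝ E) K o := by
  have he0 : e ≠ 0 := by rintro rfl; simp at he
  have h1 : finrank ℝ (Submodule.span ℝ {e})ᗮ + 1 = finrank ℝ E := by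
    have h2 := Submodule.finrank_add_finrank_orthogonal (Submodule.span ℝ {e})
    rw [finrank_span_singleton he0] at h2
    omega
  have h4 := cover_le_two (V := (Submodule.span ℝ {e})ᗮ) rfl (by omega)
    (convex_polar (sec K o e) 0) (isCompact_polar (sec_int ho))
    (interior_polar_nonempty (sec_compact hKc) (sec_int ho))
  have h5 := sepd_of_cover ho (pyr hK hKc ho ha he hpyr h4)
  rw [← h1, pow_succ, mul_comm]
  exact h5

end Pool.Agent.R753.SJ
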