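import Pool.Agent.R753.SJ.F

set_option autoImplicit false
set_option linter.unusedSectionVars false

/-!
# Interior points close to a facet
-/

namespace Pool.Agent.R753.SJ

open scoped InnerProductSpace Topology
open Metric Pool.Agent.H985.Sep Pool.Agent.R753 Module Filter

variable {E : Type} [NormedAddCommGroup E] [InnerProductSpace ℝ E] [FiniteDimensional ℝ E]

/-- the hyperplane orthogonal to `e` -/
noncomputable abbrev WW (e : E) : Submodule ℝ E := (Submodule.span ℝ {e})ᗮ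

lemma inner_pr {e : E} (v : E) (y : (Submodule.span ℝ {e})ᗮ) :
    ⟪(pr v : (Submodule.span ℝ {e})ᗮ), y⟫_ℝ = ⟪v, (y : E)⟫_ℝ := by
  rw [Submodule.coe_inner]
  show ⟪v - (⟪v, e⟫_ℝ / ⟪e, e⟫_ℝ) • e, (y : E)⟫_ℝ = _
  rw [inner_sub_left, real_inner_smul_left, inner_e, mul_zero, sub_zero]

lemma pr_eq_zero {e : E} (he : ‖e‖ = 1) {v : E} (hv : ‖v‖ = 1)
    (h : (pr v : (Submodule.span ℝ {e})ᗮ) = 0) : v = e ∨ v = -e := by
  have hee : ⟪e, e⟫_ℝ = 1 := by rw [real_inner_self_eq_norm_sq, he]; norm_num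
  have h1 : v - (⟪v, e⟫_ℝ / ⟪e, e⟫_ℝ) • e = 0 := congrArg Subtype.val h
  rw [hee, div_one] at h1
  have h2 : v = ⟪v, e⟫_ℝ • e := sub_eq_zero.1 h1
  have h3 : |⟪v, e⟫_ℝ| = 1 := by
    have := congrArg norm h2
    rw [norm_smul, he, hv, Real.norm_eq_abs, mul_one] at this
    exact this.symm
  rcases (abs_eq (by norm_num)).1 h3 with h4 | h4
  · left; rw [h2, h4, one_smul]
  · right; rw [h2, h4, neg_smul, one_smul]

/-- The combinatorial heart: a uniform slope. -/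
lemma slope {K : Set E} (hKc : IsCompact K) {o' e : E} (he : ‖e‖ = 1)
    (h0 : o' ∈ K) (hpos : ∀ x ∈ K, 0 ≤ ⟪e, x - o'⟫_ℝ) (hex : ∃ x ∈ K, 0 < ⟪e, x - o'⟫_ℝ)
    [Nontrivial (WW e)] (H : Finset (WW e × ℝ))
    (hH : ∀ u x₀ : WW e, u ≠ 0 → x₀ ∈ sec K o' e →
      (∀ y ∈ sec K o' e, ⟪u, y⟫_ℝ ≤ ⟪u, x₀⟫_ℝ) →
      ∃ h ∈ H, ⟪h.1, (0 : WW e)⟫_ℝ < h.2 ∧
        ∀ x ∈ sec K o' e, ⟪u, x⟫_ℝ = ⟪u, x₀⟫_ℝ → h.2 < ⟪h.1, x⟫_ℝ) :
    ∃ N : ℕ, ∀ u : E, ‖u‖ = 1 → u ≠ -e → ∀ x₀ ∈ K, (∀ y ∈ K, ⟪u, y⟫_ℝ ≤ ⟪u, x₀⟫_ℝ) →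
      ∃ h ∈ H, 0 < h.2 ∧ ∀ x ∈ K, ⟪u, x⟫_ℝ = ⟪u, x₀⟫_ℝ →
        h.2 / 2 < ⟪(h.1 : E), x - o'⟫_ℝ + (N + 1) * ⟪e, x - o'⟫_ℝ := by
  classical
  by_contra hcon
  push Not at hcon
  choose u hu hne x₀ hx₀ hmax hbad using hcon
  have hbad' : ∀ (N : ℕ) (h : WW e × ℝ), ∃ x ∈ K, ⟪u N, x⟫_ℝ = ⟪u N, x₀ N⟫_ℝ ∧
      (h ∈ H → 0 < h.2 →
        ⟪(h.1 : E), x - o'⟫_ℝ + (N + 1) * ⟪e, x - o'⟫_ℝ ≤ h.2 / 2) := by
    intro N h
    by_cases hh : h ∈ H ∧ 0 < h.2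
    · obtain ⟨x, hx, hx1, hx2⟩ := hbad N h hh.1 hh.2
      exact ⟨x, hx, hx1, fun _ _ => hx2⟩
    · exact ⟨x₀ N, hx₀ N, rfl, fun h1 h2 => absurd ⟨h1, h2⟩ hh⟩
  choose x hxK hxu hxb using hbad'
  obtain ⟨β₀, hβ₀⟩ : ∃ β : WW e, ‖β‖ = 1 := exists_norm_eq (WW e) zero_le_one
  set β : ℕ → WW e := fun N => if (pr (u N) : WW e) = 0 then β₀ else ‖(pr (u N) : WW e)‖⁻¹ • pr (u N)
    with hβ
  have hβ1 : ∀ N, ‖β N‖ = 1 := by
    intro N
    simp only [hβ]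
    split_ifs with h
    · exact hβ₀
    · rw [norm_smul, norm_inv, norm_norm, inv_mul_cancel₀ (norm_ne_zero_iff.2 h)]
  -- a convergent subsequence
  have hcomp : IsCompact ((sphere (0 : E) 1 ×ˢ sphere (0 : WW e) 1) ×ˢ
      (Set.univ.pi fun _ : H => K)) :=
    ((isCompact_sphere _ _).prod (isCompact_sphere _ _)).prod
      (isCompact_univ_pi fun _ => hKc)
  obtain ⟨⟨⟨ui, bi⟩, xi⟩, ⟨⟨hui, hbi⟩, hxi⟩, φ, hφ, hlim⟩ := hcomp.tendsto_subseq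
    (x := fun N => ((u N, β N), fun h : H => x N h)) (fun N => ⟨⟨by simp [hu N], by
      simp [hβ1 N]⟩, fun h _ => hxK N h⟩)
  have hlu : Tendsto (fun k => u (φ k)) atTop (𝓝 ui) :=
    ((continuous_fst.comp continuous_fst).tendsto _).comp hlim
  have hlβ : Tendsto (fun k => β (φ k)) atTop (𝓝 bi) :=
    ((continuous_snd.comp continuous_fst).tendsto _).comp hlim
  have hlx : ∀ h : H, Tendsto (fun k => x (φ k) h) atTop (𝓝 (xi h)) := fun h =>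
    (((continuous_apply h).comp continuous_snd).tendsto _).comp hlim
  have hxKL : ∀ h : H, xi h ∈ K := fun h => hxi h trivial
  have hu1 : ‖ui‖ = 1 := by simpa using hui
  have hβ1' : ‖bi‖ = 1 := by simpa using hbi
  -- (1) the limits are in the facet
  have hfac : ∀ h : H, 0 < h.1.2 → ⟪e, xi h - o'⟫_ℝ = 0 := by
    intro h hh
    obtain ⟨R, hR⟩ : ∃ R : ℝ, ∀ y ∈ K, ‖y - o'‖ ≤ R := by
      obtain ⟨R, hR⟩ := hKc.isBounded.subset_closedBall o'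
      exact ⟨R, fun y hy => by simpa [dist_eq_norm] using hR hy⟩
    set C : ℝ := h.1.2 / 2 + ‖(h.1.1 : E)‖ * R with hC
    have h1 : ∀ k, ⟪e, x (φ k) h - o'⟫_ℝ ≤ C * (1 / ((φ k : ℝ) + 1)) := by
      intro k
      have h2 := hxb (φ k) h h.2 hh
      have h3 : -(‖(h.1.1 : E)‖ * R) ≤ ⟪(h.1.1 : E), x (φ k) h - o'⟫_ℝ := by
        have h4 := abs_real_inner_le_norm (h.1.1 : E) (x (φ k) h - o')
        have h5 := neg_abs_le ⟪(h.1.1 : E), x (φ k) h - o'⟫_ℝ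
        have h6 : ‖(h.1.1 : E)‖ * ‖x (φ k) h - o'‖ ≤ ‖(h.1.1 : E)‖ * R :=
          mul_le_mul_of_nonneg_left (hR _ (hxK _ _)) (norm_nonneg _)
        linarith
      rw [mul_one_div, le_div_iff₀ (by positivity)]
      rw [hC]
      nlinarith
    have h2 : Tendsto (fun k => C * (1 / ((φ k : ℝ) + 1))) atTop (𝓝 (C * 0)) :=
      ((tendsto_one_div_add_atTop_nhds_zero_nat (𝕜 := ℝ)).comp hφ.tendsto_atTop).const_mul C
    rw [mul_zero] at h2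
    have h3 : Tendsto (fun k => ⟪e, x (φ k) h - o'⟫_ℝ) atTop (𝓝 ⟪e, xi h - o'⟫_ℝ) :=
      tendsto_const_nhds.inner ((hlx h).sub_const o')
    exact le_antisymm (le_of_tendsto_of_tendsto' h3 h2 h1) (hpos _ (hxKL h))
  -- (2)
  have hle : ∀ h : H, 0 < h.1.2 → ⟪(h.1.1 : E), xi h - o'⟫_ℝ ≤ h.1.2 / 2 := by
    intro h hh
    have h3 : Tendsto (fun k => ⟪(h.1.1 : E), x (φ k) h - o'⟫_ℝ) atTop
        (𝓝 ⟪(h.1.1 : E), xi h - o'⟫_ℝ) :=
      tendsto_const_nhds.inner ((hlx h).sub_const o')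
    refine le_of_tendsto' h3 fun k => ?_
    have h2 := hxb (φ k) h h.2 hh
    have h4 := hpos _ (hxK (φ k) h)
    have h5 : 0 ≤ ((φ k : ℝ) + 1) * ⟪e, x (φ k) h - o'⟫_ℝ := by positivity
    linarith
  -- (3)
  have hmx : ∀ h : H, ∀ y ∈ K, ⟪ui, y⟫_ℝ ≤ ⟪ui, xi h⟫_ℝ := by
    intro h y hy
    have h3 : Tendsto (fun k => ⟪u (φ k), x (φ k) h⟫_ℝ) atTop (𝓝 ⟪ui, xi h⟫_ℝ) :=
      hlu.inner (hlx h)
    have h4 : Tendsto (fun k => ⟪u (φ k), y⟫_ℝ) atTop (𝓝 ⟪ui, y⟫_ℝ) :=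
      hlu.inner tendsto_const_nhds
    refine le_of_tendsto_of_tendsto' h4 h3 fun k => ?_
    rw [hxu]
    exact hmax (φ k) y hy
  -- it is enough to find a functional on `WW e`
  have fin : ∀ b : WW e, b ≠ 0 → (∀ h : H, 0 < h.1.2 → ∀ y ∈ sec K o' e,
      ⟪(b : E), (y : E)⟫_ℝ ≤ ⟪(b : E), xi h - o'⟫_ℝ) → False := by
    intro b hb hbm
    have hsc : IsCompact (sec K o' e) := sec_compact hKc
    have hsn : (sec K o' e).Nonempty := ⟨0, by show o' + ((0 : WW e) : E) ∈ K; simpa using h0⟩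
    obtain ⟨y₀, hy₀, hym⟩ := hsc.exists_isMaxOn hsn (f := fun y => ⟪b, y⟫_ℝ) (by fun_prop)
    obtain ⟨h, hh, h1, h2⟩ := hH b y₀ hb hy₀ (fun y hy => hym hy)
    rw [inner_zero_right] at h1
    have hf := hfac ⟨h, hh⟩ h1
    have hmem : xi ⟨h, hh⟩ - o' ∈ WW e := Submodule.mem_orthogonal_singleton_iff_inner_right.2 hf
    have hz : (⟨xi ⟨h, hh⟩ - o', hmem⟩ : WW e) ∈ sec K o' e := by
      show o' + (xi ⟨h, hh⟩ - o') ∈ K
      rw [add_sub_cancel]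
      exact hxKL _
    have h3 : ⟪b, (⟨xi ⟨h, hh⟩ - o', hmem⟩ : WW e)⟫_ℝ = ⟪b, y₀⟫_ℝ := by
      refine le_antisymm (hym hz) ?_
      exact hbm ⟨h, hh⟩ h1 y₀ hy₀
    have h4 := h2 _ hz h3
    have h5 := hle ⟨h, hh⟩ h1
    have h6 : ⟪h.1, (⟨xi ⟨h, hh⟩ - o', hmem⟩ : WW e)⟫_ℝ = ⟪(h.1 : E), xi ⟨h, hh⟩ - o'⟫_ℝ := rfl
    rw [h6] at h4
    simp only at h5
    linarith
  by_cases hcase : ui = -e
  · -- the limit is the facet itself
    refine fin bi (by rintro rfl; simp at hβ1') fun h hh y hy => ?_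
    have h3 : Tendsto (fun k => ⟪(β (φ k) : E), x (φ k) h - o'⟫_ℝ) atTop
        (𝓝 ⟪(bi : E), xi h - o'⟫_ℝ) :=
      ((continuous_subtype_val.tendsto _).comp hlβ).inner ((hlx h).sub_const o')
    have h4 : Tendsto (fun k => ⟪(β (φ k) : E), (y : E)⟫_ℝ) atTop (𝓝 ⟪(bi : E), (y : E)⟫_ℝ) :=
      ((continuous_subtype_val.tendsto _).comp hlβ).inner tendsto_const_nhds
    have h5 : Tendsto (fun k => ⟪u (φ k), e⟫_ℝ) atTop (𝓝 ⟪ui, e⟫_ℝ) :=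
      hlu.inner tendsto_const_nhds
    have h6 : ⟪ui, e⟫_ℝ = -1 := by
      rw [hcase, inner_neg_left, real_inner_self_eq_norm_sq, he]; norm_num
    rw [h6] at h5
    have h7 : ∀ᶠ k in atTop, ⟪u (φ k), e⟫_ℝ < 0 := h5.eventually_lt_const (by norm_num)
    refine le_of_tendsto_of_tendsto h4 h3 ?_
    filter_upwards [h7] with k hk
    have h8 : (pr (u (φ k)) : WW e) ≠ 0 := by
      intro h9
      rcases pr_eq_zero he (hu (φ k)) h9 with h10 | h10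
      · rw [h10, real_inner_self_eq_norm_sq, he] at hk
        norm_num at hk
      · exact hne _ h10
    have h9 : β (φ k) = ‖(pr (u (φ k)) : WW e)‖⁻¹ • pr (u (φ k)) := by
      simp only [hβ]
      rw [if_neg h8]
    have hn : 0 < ‖(pr (u (φ k)) : WW e)‖ := norm_pos_iff.2 h8
    rw [h9, Submodule.coe_smul, real_inner_smul_left, real_inner_smul_left]
    refine mul_le_mul_of_nonneg_left ?_ (by positivity)
    -- the inequality before normalization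
    have h10 : ⟪((pr (u (φ k)) : WW e) : E), (y : E)⟫_ℝ = ⟪u (φ k), (y : E)⟫_ℝ := inner_pr _ _
    have h11 : ⟪((pr (u (φ k)) : WW e) : E), x (φ k) h - o'⟫_ℝ =
        ⟪u (φ k), x (φ k) h - o'⟫_ℝ - ⟪u (φ k), e⟫_ℝ * ⟪e, x (φ k) h - o'⟫_ℝ := by
      show ⟪u (φ k) - (⟪u (φ k), e⟫_ℝ / ⟪e, e⟫_ℝ) • e, _⟫_ℝ = _
      rw [inner_sub_left, real_inner_smul_left, real_inner_self_eq_norm_sq e, he]
      norm_num
    have h12 : ⟪u (φ k), (y : E)⟫_ℝ ≤ ⟪u (φ k), x (φ k) h - o'⟫_ℝ := by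
      have h13 := hmax (φ k) _ hy
      rw [← hxu (φ k) h, inner_add_right] at h13
      rw [inner_sub_right]
      linarith
    have h13 := hpos _ (hxK (φ k) h)
    rw [h10, h11]
    nlinarith
  · by_cases hb : (pr ui : WW e) = 0
    · -- `ui = e`
      rcases pr_eq_zero he hu1 hb with h1 | h1
      · obtain ⟨b, hb⟩ := exists_ne (0 : WW e)
        have hsc : IsCompact (sec K o' e) := sec_compact hKc
        have hsn : (sec K o' e).Nonempty := ⟨0, by show o' + ((0 : WW e) : E) ∈ K; simpa using h0⟩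
        obtain ⟨y₀, hy₀, hym⟩ := hsc.exists_isMaxOn hsn (f := fun y => ⟪b, y⟫_ℝ) (by fun_prop)
        obtain ⟨h, hh, h2, -⟩ := hH b y₀ hb hy₀ (fun y hy => hym hy)
        rw [inner_zero_right] at h2
        have h3 := hfac ⟨h, hh⟩ h2
        obtain ⟨z, hz, hz0⟩ := hex
        have h4 := hmx ⟨h, hh⟩ z hz
        rw [h1] at h4
        rw [inner_sub_right] at h3 hz0
        linarith
      · exact hcase h1
    · refine fin (pr ui) hb fun h hh y hy => ?_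
      have h1 := hmx h _ hy
      have h2 := hfac h hh
      have h10 : ⟪((pr ui : WW e) : E), (y : E)⟫_ℝ = ⟪ui, (y : E)⟫_ℝ := inner_pr _ _
      have h11 : ⟪((pr ui : WW e) : E), xi h - o'⟫_ℝ =
          ⟪ui, xi h - o'⟫_ℝ - ⟪ui, e⟫_ℝ * ⟪e, xi h - o'⟫_ℝ := by
        show ⟪ui - (⟪ui, e⟫_ℝ / ⟪e, e⟫_ℝ) • e, _⟫_ℝ = _
        rw [inner_sub_left, real_inner_smul_left, real_inner_self_eq_norm_sq e, he]
        norm_num
      rw [h10, h11, h2, mul_zero, sub_zero, inner_sub_right]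
      rw [inner_add_right] at h1
      linarith

/-- **The facet step.** -/
theorem facet {K : Set E} (hKc : IsCompact K) {o' e : E} (he : ‖e‖ = 1)
    (h0 : o' ∈ K) (hpos : ∀ x ∈ K, 0 ≤ ⟪e, x - o'⟫_ℝ) (hex : ∃ x ∈ K, 0 < ⟪e, x - o'⟫_ℝ)
    [Nontrivial (Submodule.span ℝ {e})ᗮ] {n : ℕ} (hs : Sepd n (sec K o' e) 0) :
    ∃ ε : ℝ, 0 < ε ∧ ∀ o : E, 0 < ⟪e, o - o'⟫_ℝ → dist o o' < ε → Sepd (n + 1) K o := by
  classical
  obtain ⟨H, hHc, -, hH⟩ := hs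
  obtain ⟨N, hN⟩ := slope hKc he h0 hpos hex H hH
  have hee : ⟪e, e⟫_ℝ = 1 := by rw [real_inner_self_eq_norm_sq, he]; norm_num
  obtain ⟨ε, hε0, hε⟩ : ∃ ε : ℝ, 0 < ε ∧ ∀ h ∈ H, 0 < h.2 →
      ε * (‖(h.1 : E)‖ + (N + 1)) < h.2 / 2 := by
    have h1 : ∀ h ∈ H, ∀ᶠ ε : ℝ in 𝓝[>] 0, 0 < h.2 → ε * (‖(h.1 : E)‖ + (N + 1)) < h.2 / 2 := by
      intro h _
      by_cases hh : 0 < h.2
      · have h2 : Tendsto (fun ε : ℝ => ε * (‖(h.1 : E)‖ + (N + 1))) (𝓝[>] 0)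
            (𝓝 (0 * (‖(h.1 : E)‖ + (N + 1)))) :=
          (Continuous.tendsto (by fun_prop) 0).mono_left nhdsWithin_le_nhds
        rw [zero_mul] at h2
        filter_upwards [h2.eventually_lt_const (half_pos hh)] with ε h3 _ using h3
      · exact Eventually.of_forall fun _ h3 => absurd h3 hh
    have h2 := (Filter.eventually_all_finset H).2 h1
    have h3 : ∀ᶠ ε : ℝ in 𝓝[>] 0, 0 < ε := self_mem_nhdsWithin
    obtain ⟨ε, h4, h5⟩ := (h2.and h3).exists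
    exact ⟨ε, h5, h4⟩
  refine ⟨ε, hε0, fun o ho1 ho2 => ?_⟩
  refine ⟨insert (-e, -⟪e, o'⟫_ℝ - ⟪e, o - o'⟫_ℝ / 2) ((H.filter fun h => 0 < h.2).image fun h =>
    ((h.1 : E) + ((N : ℝ) + 1) • e, ⟪(h.1 : E) + ((N : ℝ) + 1) • e, o'⟫_ℝ + h.2 / 2)), ?_, ?_, ?_⟩
  · refine (Finset.card_insert_le _ _).trans ?_
    have h1 := Finset.card_image_le (s := H.filter fun h => 0 < h.2)
      (f := fun h : (Submodule.span ℝ {e})ᗮ × ℝ => ((h.1 : E) + ((N : ℝ) + 1) • e,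
        ⟪(h.1 : E) + ((N : ℝ) + 1) • e, o'⟫_ℝ + h.2 / 2))
    have h2 := Finset.card_filter_le H fun h => 0 < h.2
    omega
  · intro h hh
    rw [Finset.mem_insert, Finset.mem_image] at hh
    rcases hh with rfl | ⟨h', -, rfl⟩
    · show -e ≠ 0
      intro h1
      have : e = 0 := neg_eq_zero.1 h1
      rw [this] at he
      simp at he
    · intro h1
      have h2 : ⟪(h'.1 : E) + ((N : ℝ) + 1) • e, e⟫_ℝ = 0 := by
        show ⟪_, e⟫_ℝ = 0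
        rw [show (h'.1 : E) + ((N : ℝ) + 1) • e = 0 from h1, inner_zero_left]
      rw [inner_add_left, real_inner_smul_left, inner_e', hee] at h2
      have : (0 : ℝ) < (N : ℝ) + 1 := by positivity
      linarith
  · intro u x₀ hu hx₀ hmax
    have hn : 0 < ‖u‖ := norm_pos_iff.2 hu
    set v := ‖u‖⁻¹ • u with hv
    have hv1 : ‖v‖ = 1 := by rw [hv, norm_smul, norm_inv, norm_norm, inv_mul_cancel₀ hn.ne']
    have huv : ∀ x, ⟪v, x⟫_ℝ = ‖u‖⁻¹ * ⟪u, x⟫_ℝ := fun x => real_inner_smul_left _ _ _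
    by_cases hve : v = -e
    · refine ⟨_, Finset.mem_insert_self _ _, ?_, ?_⟩
      · show ⟪-e, o⟫_ℝ < _
        rw [inner_neg_left, inner_sub_right]
        rw [inner_sub_right] at ho1
        linarith
      · intro x hx hxu
        have h1 : ⟪v, o'⟫_ℝ ≤ ⟪v, x⟫_ℝ := by
          rw [huv, huv, hxu]
          exact mul_le_mul_of_nonneg_left (hmax _ h0) (by positivity)
        rw [hve, inner_neg_left, inner_neg_left] at h1
        show _ < ⟪-e, x⟫_ℝ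
        rw [inner_neg_left]
        linarith
    · obtain ⟨h, hh, hh0, h1⟩ := hN v hv1 hve x₀ hx₀ (fun y hy => by
        rw [huv, huv]
        exact mul_le_mul_of_nonneg_left (hmax _ hy) (by positivity))
      refine ⟨_, Finset.mem_insert_of_mem (Finset.mem_image.2 ⟨h, Finset.mem_filter.2
        ⟨hh, hh0⟩, rfl⟩), ?_, ?_⟩
      · show ⟪(h.1 : E) + ((N : ℝ) + 1) • e, o⟫_ℝ < ⟪(h.1 : E) + ((N : ℝ) + 1) • e, o'⟫_ℝ + h.2 / 2
        have h2 : ⟪(h.1 : E) + ((N : ℝ) + 1) • e, o⟫_ℝ = ⟪(h.1 : E) + ((N : ℝ) + 1) • e, o'⟫_ℝ +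
            ⟪(h.1 : E) + ((N : ℝ) + 1) • e, o - o'⟫_ℝ := by rw [← inner_add_right]; congr 1; abel
        have h3 : ⟪(h.1 : E) + ((N : ℝ) + 1) • e, o - o'⟫_ℝ ≤
            ‖(h.1 : E) + ((N : ℝ) + 1) • e‖ * ‖o - o'‖ := real_inner_le_norm _ _
        have h4 : ‖(h.1 : E) + ((N : ℝ) + 1) • e‖ ≤ ‖(h.1 : E)‖ + (N + 1) := by
          refine (norm_add_le _ _).trans ?_
          rw [norm_smul, he, mul_one, Real.norm_eq_abs, abs_of_nonneg (by positivity)]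
        have h5 : ‖o - o'‖ ≤ ε := by rw [← dist_eq_norm]; exact ho2.le
        have h6 : ‖(h.1 : E) + ((N : ℝ) + 1) • e‖ * ‖o - o'‖ ≤ (‖(h.1 : E)‖ + (N + 1)) * ε :=
          mul_le_mul h4 h5 (norm_nonneg _) (by positivity)
        have h7 := hε h hh hh0
        linarith
      · intro x hx hxu
        have h2 := h1 x hx (by rw [huv, huv, hxu])
        show ⟪(h.1 : E) + ((N : ℝ) + 1) • e, o'⟫_ℝ + h.2 / 2 < ⟪(h.1 : E) + ((N : ℝ) + 1) • e, x⟫_ℝ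
        have h3 : ⟪(h.1 : E) + ((N : ℝ) + 1) • e, x⟫_ℝ = ⟪(h.1 : E) + ((N : ℝ) + 1) • e, o'⟫_ℝ +
            (⟪(h.1 : E), x - o'⟫_ℝ + (N + 1) * ⟪e, x - o'⟫_ℝ) := by
          rw [← real_inner_smul_left, ← inner_add_left, ← inner_add_right]
          congr 1
          abel
        linarith

end Pool.Agent.R753.SJ
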