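import Pool.Agent.R753.SJ.H

set_option autoImplicit false
set_option linter.unusedSectionVars false

/-!
# Polytopes have interior points `o` with `s(K, o) = d + 1`
-/

namespace Pool.Agent.R753.SJ

open scoped InnerProductSpace Topology
open Metric Pool.Agent.H985.Sep Pool.Agent.R753 Module Filter

/-- the intersection of finitely many half-spaces -/
def Poly {E : Type} [NormedAddCommGroup E] [InnerProductSpace ℝ E] (I : Finset (E × ℝ)) : Set E :=
  {x | ∀ h ∈ I, ⟪h.1, x⟫_ℝ ≤ h.2}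

variable {E : Type} [NormedAddCommGroup E] [InnerProductSpace ℝ E] [FiniteDimensional ℝ E]

lemma poly_convex (I : Finset (E × ℝ)) : Convex ℝ (Poly I) := by
  intro x hx y hy s t hs ht hst h hh
  rw [inner_add_right, real_inner_smul_right, real_inner_smul_right]
  have h1 := hx h hh
  have h2 := hy h hh
  calc s * ⟪h.1, x⟫_ℝ + t * ⟪h.1, y⟫_ℝ ≤ s * h.2 + t * h.2 := by gcongr
    _ = h.2 := by rw [← add_mul, hst, one_mul]

/-- the strict inequalities define an open set -/
lemma poly_open {V : Type} [NormedAddCommGroup V] [InnerProductSpace ℝ V] (I : Finset (V × ℝ))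
    {x : V} (hx : ∀ h ∈ I, ⟪h.1, x⟫_ℝ < h.2) : x ∈ interior (Poly I) := by
  have ho : IsOpen {x : V | ∀ h ∈ I, ⟪h.1, x⟫_ℝ < h.2} := by
    have : {x : V | ∀ h ∈ I, ⟪h.1, x⟫_ℝ < h.2} = ⋂ h ∈ I, {x : V | ⟪h.1, x⟫_ℝ < h.2} := by
      ext; simp
    rw [this]
    exact isOpen_biInter_finset fun h _ => isOpen_lt (by fun_prop) continuous_const
  exact mem_interior.2 ⟨_, fun y hy h hh => (hy h hh).le, ho, hx⟩

/-- **Existence of a facet.** -/
lemma exists_facet (I : Finset (E × ℝ)) (hK : IsCompact (Poly I))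
    (hi : (interior (Poly I)).Nonempty) (hd : 1 ≤ finrank ℝ E) :
    ∃ (e o' : E) (J : Finset (WW e × ℝ)), ‖e‖ = 1 ∧ o' ∈ Poly I ∧
      (∀ x ∈ Poly I, 0 ≤ ⟪e, x - o'⟫_ℝ) ∧ sec (Poly I) o' e = Poly J ∧
      0 ∈ interior (Poly J) := by
  classical
  -- a minimal subsystem
  obtain ⟨J, hJ, hJmin⟩ : ∃ J : Finset (E × ℝ), Poly J = Poly I ∧
      ∀ J' : Finset (E × ℝ), Poly J' = Poly I → J.card ≤ J'.card := by
    have hne : ∃ n, ∃ J : Finset (E × ℝ), J.card = n ∧ Poly J = Poly I := ⟨_, I, rfl, rfl⟩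
    obtain ⟨J, hJc, hJ⟩ := Nat.find_spec hne
    refine ⟨J, hJ, fun J' hJ' => ?_⟩
    rw [hJc]
    exact Nat.find_min' hne ⟨J', rfl, hJ'⟩
  obtain ⟨p, hp⟩ := hi
  have : Nontrivial E := Module.nontrivial_of_finrank_pos (R := ℝ) (by omega)
  have hJne : J.Nonempty := by
    rw [Finset.nonempty_iff_ne_empty]
    rintro rfl
    have : Poly (∅ : Finset (E × ℝ)) = Set.univ := by ext; simp [Poly]
    rw [this] at hJ
    rw [← hJ] at hK
    exact noncompact_univ E hK
  obtain ⟨h, hh⟩ := hJne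
  have hpJ : p ∈ Poly J := by rw [hJ]; exact interior_subset hp
  obtain ⟨x, hx, hxh⟩ : ∃ x, (∀ g ∈ J.erase h, ⟪g.1, x⟫_ℝ ≤ g.2) ∧ h.2 < ⟪h.1, x⟫_ℝ := by
    by_contra hcon
    push Not at hcon
    have h1 : Poly (J.erase h) = Poly I := by
      rw [← hJ]
      ext y
      constructor
      · intro hy g hg
        by_cases hgh : g = h
        · rw [hgh]; exact hcon y hy
        · exact hy g (Finset.mem_erase.2 ⟨hgh, hg⟩)
      · exact fun hy g hg => hy g (Finset.mem_of_mem_erase hg)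
    have h2 := hJmin _ h1
    rw [Finset.card_erase_of_mem hh] at h2
    have := Finset.card_pos.2 ⟨h, hh⟩
    omega
  -- the inequalities are strict at `p`
  have hstrict : ∀ g ∈ J, ⟪g.1, p⟫_ℝ < g.2 := by
    intro g hg
    by_cases hg0 : g.1 = 0
    · exfalso
      have h1 : Poly (J.erase g) = Poly I := by
        rw [← hJ]
        ext y
        constructor
        · intro hy k hk
          by_cases hkg : k = g
          · rw [hkg, hg0, inner_zero_left]
            have := hpJ g hg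
            rwa [hg0, inner_zero_left] at this
          · exact hy k (Finset.mem_erase.2 ⟨hkg, hk⟩)
        · exact fun hy k hk => hy k (Finset.mem_of_mem_erase hk)
      have h2 := hJmin _ h1
      rw [Finset.card_erase_of_mem hg] at h2
      have := Finset.card_pos.2 ⟨g, hg⟩
      omega
    · -- move in the direction of `g.1`
      obtain ⟨r, hr, hrK⟩ := exists_ball hp
      have hn : 0 < ‖g.1‖ := norm_pos_iff.mpr hg0
      have h1 : p + (r / ‖g.1‖) • g.1 ∈ Poly I := by
        apply hrK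
        rw [mem_closedBall, dist_eq_norm, add_sub_cancel_left, norm_smul, Real.norm_eq_abs,
          abs_of_pos (by positivity), div_mul_cancel₀ _ hn.ne']
      rw [← hJ] at h1
      have h2 := h1 g hg
      rw [inner_add_right, real_inner_smul_right, real_inner_self_eq_norm_sq] at h2
      have h3 : 0 < r / ‖g.1‖ * ‖g.1‖ ^ 2 := by positivity
      linarith
  have hph := hstrict h hh
  have h10 : h.1 ≠ 0 := by
    intro h1
    rw [h1, inner_zero_left] at hxh hph
    linarith
  have hn : 0 < ‖h.1‖ := norm_pos_iff.mpr h10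
  set t : ℝ := (h.2 - ⟪h.1, p⟫_ℝ) / (⟪h.1, x⟫_ℝ - ⟪h.1, p⟫_ℝ) with ht
  have hden : 0 < ⟪h.1, x⟫_ℝ - ⟪h.1, p⟫_ℝ := by linarith
  have ht0 : 0 < t := by
    rw [ht]; exact div_pos (by linarith) hden
  have ht1 : t < 1 := by
    rw [ht, div_lt_one hden]; linarith
  set o' : E := (1 - t) • p + t • x with ho'
  have hoh : ⟪h.1, o'⟫_ℝ = h.2 := by
    rw [ho', inner_add_right, real_inner_smul_right, real_inner_smul_right, ht]
    field_simp
    ring
  have hog : ∀ g ∈ J, g ≠ h → ⟪g.1, o'⟫_ℝ < g.2 := by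
    intro g hg hgh
    rw [ho', inner_add_right, real_inner_smul_right, real_inner_smul_right]
    have h1 := hstrict g hg
    have h2 := hx g (Finset.mem_erase.2 ⟨hgh, hg⟩)
    have h3 : (1 - t) * ⟪g.1, p⟫_ℝ < (1 - t) * g.2 := mul_lt_mul_of_pos_left h1 (by linarith)
    have h4 : t * ⟪g.1, x⟫_ℝ ≤ t * g.2 := mul_le_mul_of_nonneg_left h2 ht0.le
    linarith
  set e : E := -(‖h.1‖⁻¹ • h.1) with he
  have hin : ∀ y, ⟪e, y⟫_ℝ = -(‖h.1‖⁻¹ * ⟪h.1, y⟫_ℝ) := by
    intro y
    rw [he, inner_neg_left, real_inner_smul_left]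
  refine ⟨e, o', (J.erase h).image fun g => (pr g.1, g.2 - ⟪g.1, o'⟫_ℝ), ?_, ?_, ?_, ?_, ?_⟩
  · rw [he, norm_neg, norm_smul, norm_inv, norm_norm, inv_mul_cancel₀ hn.ne']
  · rw [← hJ]
    intro g hg
    by_cases hgh : g = h
    · rw [hgh, hoh]
    · exact (hog g hg hgh).le
  · intro y hy
    rw [← hJ] at hy
    have h1 := hy h hh
    rw [hin, inner_sub_right, hoh]
    have : 0 ≤ ‖h.1‖⁻¹ * (h.2 - ⟪h.1, y⟫_ℝ) := by
      have : 0 ≤ h.2 - ⟪h.1, y⟫_ℝ := by linarith
      positivity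
    linarith
  · ext w
    have hwh : ⟪h.1, (w : E)⟫_ℝ = 0 := by
      have h1 : ⟪e, (w : E)⟫_ℝ = 0 := inner_e w
      rw [hin, neg_eq_zero, mul_eq_zero] at h1
      rcases h1 with h1 | h1
      · exact absurd h1 (by positivity)
      · exact h1
    constructor
    · intro hw g' hg'
      obtain ⟨g, hg, rfl⟩ := Finset.mem_image.1 hg'
      have hw' : o' + (w : E) ∈ Poly J := by rw [hJ]; exact hw
      have h1 := hw' g (Finset.mem_of_mem_erase hg)
      show ⟪(pr g.1 : WW e), w⟫_ℝ ≤ g.2 - ⟪g.1, o'⟫_ℝ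
      rw [inner_pr]
      rw [inner_add_right] at h1
      linarith
    · intro hw
      show o' + (w : E) ∈ Poly I
      rw [← hJ]
      intro g hg
      rw [inner_add_right]
      by_cases hgh : g = h
      · rw [hgh, hoh, hwh]; linarith
      · have h1 := hw _ (Finset.mem_image_of_mem _ (Finset.mem_erase.2 ⟨hgh, hg⟩))
        change ⟪(pr g.1 : WW e), w⟫_ℝ ≤ g.2 - ⟪g.1, o'⟫_ℝ at h1
        rw [inner_pr] at h1
        linarith
  · refine poly_open _ fun g' hg' => ?_
    obtain ⟨g, hg, rfl⟩ := Finset.mem_image.1 hg'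
    rw [inner_zero_right]
    have := hog g (Finset.mem_of_mem_erase hg) (Finset.ne_of_mem_erase hg)
    show 0 < g.2 - ⟪g.1, o'⟫_ℝ
    linarith

/-- **Polytopes.** -/
theorem poly (d : ℕ) : ∀ (E : Type) [NormedAddCommGroup E] [InnerProductSpace ℝ E]
    [FiniteDimensional ℝ E], finrank ℝ E = d + 1 → ∀ I : Finset (E × ℝ), IsCompact (Poly I) →
    (interior (Poly I)).Nonempty → ∃ U : Set E, IsOpen U ∧ U.Nonempty ∧ U ⊆ interior (Poly I) ∧
      ∀ o ∈ U, Sepd (d + 2) (Poly I) o := by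
  induction d with
  | zero =>
    intro E _ _ _ hd I hK hi
    refine ⟨interior (Poly I), isOpen_interior, hi, subset_rfl, fun o ho => ?_⟩
    have := cover_le_two (V := E) hd (by norm_num) (convex_polar (Poly I) o) (isCompact_polar ho)
      (interior_polar_nonempty hK ho)
    exact sepd_of_cover ho this
  | succ d ih =>
    intro E _ _ _ hd I hK hi
    obtain ⟨e, o', J, he, ho', hpos, hsec, hint⟩ := exists_facet I hK hi (by omega)
    have he0 : e ≠ 0 := by rintro rfl; simp at he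
    have hfr : finrank ℝ (WW e) = d + 1 := by
      have := finrank_W he0
      omega
    have hsc : IsCompact (Poly J) := by rw [← hsec]; exact sec_compact hK
    obtain ⟨U', -, ⟨w₀, hw₀⟩, hUi, hU⟩ := ih (WW e) hfr J hsc ⟨0, hint⟩
    have hs : Sepd (d + 2) (sec (Poly I) (o' + (w₀ : E)) e) 0 := by
      have h1 := sepd_shift (hU w₀ hw₀)
      have h2 : {w | w₀ + w ∈ Poly J} = sec (Poly I) (o' + (w₀ : E)) e := by
        rw [← hsec]
        ext w
        show o' + ((w₀ + w : WW e) : E) ∈ Poly I ↔ o' + (w₀ : E) + (w : E) ∈ Poly I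
        rw [Submodule.coe_add, add_assoc]
      rwa [h2] at h1
    have hmem : o' + (w₀ : E) ∈ Poly I := by
      have h1 : w₀ ∈ Poly J := interior_subset (hUi hw₀)
      rw [← hsec] at h1
      exact h1
    have hpos' : ∀ x ∈ Poly I, 0 ≤ ⟪e, x - (o' + (w₀ : E))⟫_ℝ := by
      intro x hx
      have h1 := hpos x hx
      rw [← sub_sub, inner_sub_right, inner_e, sub_zero]
      exact h1
    obtain ⟨ε, hε, h⟩ := facet_int hK he hmem hpos' hi (by omega) hs
    refine ⟨ball (o' + (w₀ : E)) ε ∩ interior (Poly I), isOpen_ball.inter isOpen_interior, ?_,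
      Set.inter_subset_right, fun o ho => h o ho.2 ho.1⟩
    have hcl : o' + (w₀ : E) ∈ closure (interior (Poly I)) := by
      rw [(poly_convex I).closure_interior_eq_closure_of_nonempty_interior hi]
      exact subset_closure hmem
    rw [Metric.mem_closure_iff] at hcl
    obtain ⟨b, hb, hd⟩ := hcl ε hε
    exact ⟨b, by rw [mem_ball, dist_comm]; exact hd, hb⟩

end Pool.Agent.R753.SJ
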